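import Pool.Agent.Lib.MP_0a9180_co.Signs

namespace Pool.Agent.MP_0a9180_co

open Finset

variable {n d : ℕ}

/-- Two forms with off-diagonal values `±1`, equal at some pair and opposite at some pair. -/
structure Two (r : Fin n → Fin d → ℝ) (s t : Fin d → ℝ) (u v : ℝ) : Prop where
  P : PM r s u
  M : PM r t v
  eq : ∃ i j, i ≠ j ∧ F r s i j = F r t i j
  ne : ∃ i j, i ≠ j ∧ F r s i j = - F r t i j

theorem Two.symm {r : Fin n → Fin d → ℝ} {s t : Fin d → ℝ} {u v : ℝ} (h : Two r s t u v) :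
    Two r t s v u := by
  refine ⟨h.M, h.P, ?_, ?_⟩
  · obtain ⟨i, j, hij, h1⟩ := h.eq
    exact ⟨i, j, hij, h1.symm⟩
  · obtain ⟨i, j, hij, h1⟩ := h.ne
    exact ⟨i, j, hij, by rw [h1]; ring⟩

theorem Two.neg {r : Fin n → Fin d → ℝ} {s t : Fin d → ℝ} {u v : ℝ} (h : Two r s t u v) :
    Two r (fun l => - s l) t (-u) v := by
  refine ⟨h.P.neg, h.M, ?_, ?_⟩
  · obtain ⟨i, j, hij, h1⟩ := h.ne
    exact ⟨i, j, hij, by rw [F_neg, h1]; ring⟩
  · obtain ⟨i, j, hij, h1⟩ := h.eq
    exact ⟨i, j, hij, by rw [F_neg, h1]⟩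

theorem Two.definite {r : Fin n → Fin d → ℝ} {s t : Fin d → ℝ} {u v : ℝ} (h : Two r s t u v)
    (hd : 7 ≤ d) (hn : d * d < 2 * n + d) (hu : 1 < u ^ 2) :
    (∀ l, 0 < s l) ∨ (∀ l, s l < 0) := by
  have hlin : ∀ i j, ∑ l, (v * s l - u * t l) * (r i l * r j l) = v * F r s i j - u * F r t i j := by
    intro i j
    unfold F
    rw [Finset.mul_sum, Finset.mul_sum, ← Finset.sum_sub_distrib]
    refine Finset.sum_congr rfl fun l _ => by ring
  refine h.P.definite hd hn hu (fun l => v * s l - u * t l) ?_ ?_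
  · by_contra hcon
    push Not at hcon
    have hz : ∀ i j, v * F r s i j - u * F r t i j = 0 := by
      intro i j
      rw [← hlin]
      refine Finset.sum_eq_zero fun l _ => ?_
      rw [hcon l, zero_mul]
    obtain ⟨i, j, hij, h1⟩ := h.eq
    obtain ⟨k, l, hkl, h2⟩ := h.ne
    have e1 := hz i j
    have e2 := hz k l
    have o1 := h.M.off i j hij
    have o2 := h.M.off k l hkl
    rw [h1] at e1
    rw [h2] at e2
    have f1 : F r t i j ≠ 0 := by
      intro h0; rw [h0] at o1; norm_num at o1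
    have f2 : F r t k l ≠ 0 := by
      intro h0; rw [h0] at o2; norm_num at o2
    have g1 : v - u = 0 := by
      have : (v - u) * F r t i j = 0 := by linarith
      exact (mul_eq_zero.1 this).resolve_right f1
    have g2 : v + u = 0 := by
      have : (v + u) * F r t k l = 0 := by linarith
      exact (mul_eq_zero.1 this).resolve_right f2
    have : u = 0 := by linarith
    rw [this] at hu
    norm_num at hu
  · intro i
    rw [hlin, h.P.diag, h.M.diag]
    ring

/-- The output of the case analysis: a positive definite form with off-diagonal values `±1`,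
diagonal value larger than one, and a vector whose product with all rows has constant nonzero
square. -/
def ProjData (r : Fin n → Fin d → ℝ) : Prop :=
  ∃ (s : Fin d → ℝ) (u : ℝ), (∀ l, 0 < s l) ∧ 1 < u ∧ PM r s u ∧
    ∃ (z : Fin d → ℝ) (k : ℝ), 0 < k ∧ ∀ i, (∑ l, z l * r i l) ^ 2 = k

theorem pos_diag {r : Fin n → Fin d → ℝ} {s : Fin d → ℝ} {u : ℝ} (h : PM r s u)
    (hs : ∀ l, 0 < s l) (hu : 1 < u ^ 2) (hn : 0 < n) : 1 < u := by
  have h0 : 0 ≤ u := by
    rw [← h.diag ⟨0, hn⟩]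
    unfold F
    exact Finset.sum_nonneg fun l _ => mul_nonneg (hs l).le (mul_self_nonneg _)
  nlinarith

/-- The case where one diagonal value has modulus one. -/
theorem case_one {r : Fin n → Fin d → ℝ} {s t : Fin d → ℝ} {u v : ℝ} (h : Two r s t u v)
    (hn : 0 < n) (hs : ∀ l, 0 < s l) (hu : 1 < u) (hv : v ^ 2 = 1) : ProjData r := by
  refine ⟨s, u, hs, hu, h.P, fun l => t l * r ⟨0, hn⟩ l, 1, one_pos, fun i => ?_⟩
  have : ∑ l, t l * r ⟨0, hn⟩ l * r i l = F r t ⟨0, hn⟩ i := by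
    unfold F
    refine Finset.sum_congr rfl fun l _ => by ring
  rw [this]
  by_cases hi : (⟨0, hn⟩ : Fin n) = i
  · rw [← hi, h.M.diag, hv]
  · exact h.M.off _ _ hi

/-- If all weights outside `S` are negative, a nonzero `y` killing the entries in `S` cannot have
a nonnegative weighted sum. -/
theorem no_small {r : Fin n → Fin d → ℝ} {s : Fin d → ℝ} {u : ℝ} (h : PM r s u) (hu : 1 < u ^ 2)
    (w : Fin d → Fin d → ℝ) (S : Finset (Sym2 (Fin d))) (hw : ∀ l m, s(l, m) ∉ S → w l m < 0)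
    (y : Fin n → ℝ) (hy : y ≠ 0) (hS : ∀ l m, s(l, m) ∈ S → Q r y l m = 0)
    (hsum : 0 ≤ ∑ l, ∑ m, w l m * Q r y l m ^ 2) : False := by
  have hterm : ∀ l m, w l m * Q r y l m ^ 2 ≤ 0 := by
    intro l m
    by_cases hlm : s(l, m) ∈ S
    · rw [hS l m hlm]; simp
    · exact mul_nonpos_of_nonpos_of_nonneg (hw l m hlm).le (sq_nonneg _)
  have hQ : ∀ l m, Q r y l m = 0 := by
    intro l m
    by_contra hq
    have hlm : s(l, m) ∉ S := fun h1 => hq (hS l m h1)
    have hlt : w l m * Q r y l m ^ 2 < 0 :=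
      mul_neg_of_neg_of_pos (hw l m hlm) (by positivity)
    have h1 : ∑ m, w l m * Q r y l m ^ 2 < 0 :=
      Finset.sum_neg' (fun m _ => hterm l m) ⟨m, Finset.mem_univ _, hlt⟩
    have h2 : ∑ l, ∑ m, w l m * Q r y l m ^ 2 < 0 :=
      Finset.sum_neg' (fun l _ => Finset.sum_nonpos fun m _ => hterm l m) ⟨l, Finset.mem_univ _, h1⟩
    linarith
  have htot := h.total y
  simp only [hQ] at htot
  have hpos := sum_sq_pos hy
  have : (0 : ℝ) = (∑ j, y j) ^ 2 + (u ^ 2 - 1) * ∑ i, y i ^ 2 := by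
    rw [← htot]; simp
  nlinarith [sq_nonneg (∑ j, y j)]

theorem arith_xy {x y z : ℕ} (hd : 7 ≤ x + y + z)
    (h1 : x * x + 2 * x * z ≤ x + 2 * y + 2 * z) (h2 : y * y + 2 * y * z ≤ y + 2 * x + 2 * z) :
    x ≤ 1 ∧ y ≤ 1 := by
  by_contra hcon
  have hor : 2 ≤ x ∨ 2 ≤ y := by omega
  have hx3 : x ≤ 3 := by
    by_contra hx
    have hx4 : 4 ≤ x := by omega
    have : y * (y : ℤ) + 2 ≥ 3 * y := by
      rcases Nat.lt_or_ge y 2 with hy | hy
      · interval_cases y <;> norm_num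
      · zify at hy
        nlinarith
    zify at h1 h2 hx4
    nlinarith [mul_nonneg (Int.natCast_nonneg x) (Int.natCast_nonneg z),
      mul_nonneg (Int.natCast_nonneg y) (Int.natCast_nonneg z)]
  have hy3 : y ≤ 3 := by
    by_contra hy
    have hy4 : 4 ≤ y := by omega
    have : x * (x : ℤ) + 2 ≥ 3 * x := by
      interval_cases x <;> norm_num
    zify at h1 h2 hy4
    nlinarith [mul_nonneg (Int.natCast_nonneg x) (Int.natCast_nonneg z),
      mul_nonneg (Int.natCast_nonneg y) (Int.natCast_nonneg z)]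
  interval_cases x <;> interval_cases y <;> omega

end Pool.Agent.MP_0a9180_co
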