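import Pool.Agent.Lib.MP_0a9180_co.Proj
import Pool.Agent.Lib.MP_0a9180_co.Two

namespace Pool.Agent.MP_0a9180_co

open scoped RealInnerProductSpace
open Finset

theorem inner_coord {m : ℕ} (x y : EuclideanSpace ℝ (Fin m)) : ⟪x, y⟫ = ∑ l, x l * y l := by
  rw [PiLp.inner_apply]
  refine Finset.sum_congr rfl fun l _ => ?_
  simp [mul_comm]

/-- The output of the case analysis yields a two-distance set one dimension lower. -/
theorem ProjData.twoDistance {n m : ℕ} (hn : 1 < n) {r : Fin n → Fin (m + 1) → ℝ}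
    (h : ProjData r) :
    ∃ s : Finset (EuclideanSpace ℝ (Fin m)), IsTwoDistance s ∧ s.card = n := by
  obtain ⟨s, u, hs, hu, hPM, z, k, hk, hz⟩ := h
  have hu0 : 0 < u := by linarith
  let ε : Fin n → ℝ := fun i => if 0 ≤ ∑ l, z l * r i l then 1 else -1
  have hε : ∀ i, ε i * ∑ l, z l * r i l = Real.sqrt k := by
    intro i
    rw [← hz i, Real.sqrt_sq_eq_abs]
    simp only [ε]
    split_ifs with h
    · rw [one_mul, abs_of_nonneg h]
    · rw [abs_of_neg (not_le.1 h)]; ring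
  have hεsq : ∀ i, ε i * ε i = 1 := by
    intro i
    simp only [ε]
    split_ifs <;> norm_num
  let x : Fin n → EuclideanSpace ℝ (Fin (m + 1)) := fun i =>
    WithLp.toLp 2 (fun l => ε i * (Real.sqrt u)⁻¹ * (Real.sqrt (s l) * r i l))
  have hsu : (Real.sqrt u)⁻¹ * (Real.sqrt u)⁻¹ = u⁻¹ := by
    rw [← mul_inv, Real.mul_self_sqrt hu0.le]
  have hss : ∀ l, Real.sqrt (s l) * Real.sqrt (s l) = s l := fun l =>
    Real.mul_self_sqrt (hs l).le
  have hx : ∀ i j, ⟪x i, x j⟫ = ε i * ε j * u⁻¹ * F r s i j := by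
    intro i j
    rw [inner_coord]
    unfold F
    rw [Finset.mul_sum]
    refine Finset.sum_congr rfl fun l _ => ?_
    simp only [x]
    rw [← hsu, ← hss l]
    rw [Real.sqrt_mul_self (Real.sqrt_nonneg _)]
    ring
  let z' : EuclideanSpace ℝ (Fin (m + 1)) := WithLp.toLp 2 (fun l => (Real.sqrt (s l))⁻¹ * z l)
  have hz' : ∀ i, ⟪z', x i⟫ = (Real.sqrt u)⁻¹ * Real.sqrt k := by
    intro i
    rw [inner_coord, ← hε i, Finset.mul_sum, Finset.mul_sum]
    refine Finset.sum_congr rfl fun l _ => ?_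
    simp only [x, z']
    have h1 : (Real.sqrt (s l))⁻¹ * Real.sqrt (s l) = 1 :=
      inv_mul_cancel₀ (Real.sqrt_pos.2 (hs l)).ne'
    calc (Real.sqrt (s l))⁻¹ * z l * (ε i * (Real.sqrt u)⁻¹ * (Real.sqrt (s l) * r i l))
        = ((Real.sqrt (s l))⁻¹ * Real.sqrt (s l)) * ((Real.sqrt u)⁻¹ * (ε i * (z l * r i l))) := by ring
      _ = _ := by rw [h1, one_mul]
  have hpos : 0 < (Real.sqrt u)⁻¹ * Real.sqrt k :=
    mul_pos (inv_pos.2 (Real.sqrt_pos.2 hu0)) (Real.sqrt_pos.2 hk)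
  have hz0 : z' ≠ 0 := by
    intro h0
    have := hz' ⟨0, by omega⟩
    rw [h0, inner_zero_left] at this
    linarith
  have hui : u⁻¹ < 1 := inv_lt_one_of_one_lt₀ hu
  have hui0 : 0 < u⁻¹ := inv_pos.2 hu0
  have hnorm : ∀ i, ‖x i‖ = 1 := by
    intro i
    have h1 : ‖x i‖ ^ 2 = 1 := by
      rw [← real_inner_self_eq_norm_sq, hx, hεsq, hPM.diag, one_mul, inv_mul_cancel₀ hu0.ne']
    have h2 := norm_nonneg (x i)
    nlinarith
  have hoff : ∀ i j, i ≠ j → ⟪x i, x j⟫ = u⁻¹ ∨ ⟪x i, x j⟫ = -u⁻¹ := by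
    intro i j hij
    have h1 : (ε i * ε j * F r s i j) ^ 2 = 1 ^ 2 := by
      calc (ε i * ε j * F r s i j) ^ 2 = (ε i * ε i) * (ε j * ε j) * F r s i j ^ 2 := by ring
        _ = 1 ^ 2 := by rw [hεsq, hεsq, hPM.off i j hij]; norm_num
    rcases sq_eq_sq_iff_eq_or_eq_neg.1 h1 with h2 | h2
    · left
      rw [hx]
      calc ε i * ε j * u⁻¹ * F r s i j = (ε i * ε j * F r s i j) * u⁻¹ := by ring
        _ = u⁻¹ := by rw [h2, one_mul]
    · right
      rw [hx]
      calc ε i * ε j * u⁻¹ * F r s i j = (ε i * ε j * F r s i j) * u⁻¹ := by ring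
        _ = -u⁻¹ := by rw [h2]; ring
  obtain ⟨S, hS, hcard⟩ := proj x hnorm u⁻¹ (-u⁻¹) hui (by linarith) hoff z' hz0 _ hz'
    (by simpa using hn)
  exact ⟨S, hS, by rw [hcard]; simp⟩

/-- The standard lower bound on the size of spherical two-distance sets. -/
theorem choose_le_g {m : ℕ} (hm : 2 ≤ m) : (m + 1).choose 2 ≤ g m := by
  classical
  let ι := {S : Finset (Fin (m + 1)) // S.card = 2}
  have hcard : Fintype.card ι = (m + 1).choose 2 := by
    simp only [ι]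
    rw [Fintype.card_finset_len, Fintype.card_fin]
  let x : ι → EuclideanSpace ℝ (Fin (m + 1)) := fun S =>
    WithLp.toLp 2 (fun l => if l ∈ S.1 then (Real.sqrt 2)⁻¹ else 0)
  have h2 : (Real.sqrt 2)⁻¹ * (Real.sqrt 2)⁻¹ = 1 / 2 := by
    rw [← mul_inv, Real.mul_self_sqrt (by norm_num)]; norm_num
  have hx : ∀ S T, ⟪x S, x T⟫ = ((S.1 ∩ T.1).card : ℝ) / 2 := by
    intro S T
    rw [inner_coord]
    have : ∀ l, x S l * x T l = if l ∈ S.1 ∩ T.1 then (1 / 2 : ℝ) else 0 := by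
      intro l
      simp only [x, Finset.mem_inter]
      by_cases h1 : l ∈ S.1 <;> by_cases h3 : l ∈ T.1 <;> simp [h1, h3, ← mul_inv]
    simp_rw [this]
    rw [Finset.sum_ite_mem, Finset.univ_inter, Finset.sum_const, nsmul_eq_mul]
    ring
  let z : EuclideanSpace ℝ (Fin (m + 1)) := WithLp.toLp 2 (fun _ => 1)
  have hz : ∀ S, ⟪z, x S⟫ = 2 * (Real.sqrt 2)⁻¹ := by
    intro S
    rw [inner_coord]
    have : ∀ l, z l * x S l = if l ∈ S.1 then (Real.sqrt 2)⁻¹ else 0 := by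
      intro l
      simp [z, x]
    simp_rw [this]
    rw [Finset.sum_ite_mem, Finset.univ_inter, Finset.sum_const, nsmul_eq_mul, S.2]
    norm_num
  have hz0 : z ≠ 0 := by
    intro h0
    have : z 0 = (0 : EuclideanSpace ℝ (Fin (m + 1))) 0 := by rw [h0]
    simp [z] at this
  have hone : 1 < Fintype.card ι := by
    rw [hcard]
    have h3 : (3 : ℕ).choose 2 ≤ (m + 1).choose 2 := Nat.choose_le_choose 2 (by omega)
    have h4 : (3 : ℕ).choose 2 = 3 := by decide
    omega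
  have hnorm : ∀ S, ‖x S‖ = 1 := by
    intro S
    have h1 : ‖x S‖ ^ 2 = 1 := by
      rw [← real_inner_self_eq_norm_sq, hx, Finset.inter_self, S.2]
      norm_num
    have h3 := norm_nonneg (x S)
    nlinarith
  have hoff : ∀ S T, S ≠ T → ⟪x S, x T⟫ = 0 ∨ ⟪x S, x T⟫ = 1 / 2 := by
    intro S T hST
    have hle : (S.1 ∩ T.1).card < 2 := by
      by_contra hcon
      have h3 : 2 ≤ (S.1 ∩ T.1).card := not_lt.1 hcon
      have h4 : S.1 ∩ T.1 = S.1 :=
        Finset.eq_of_subset_of_card_le Finset.inter_subset_left (by rw [S.2]; exact h3)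
      have h5 : S.1 ∩ T.1 = T.1 :=
        Finset.eq_of_subset_of_card_le Finset.inter_subset_right (by rw [T.2]; exact h3)
      exact hST (Subtype.ext (h4.symm.trans h5))
    rw [hx]
    rcases Nat.lt_or_ge (S.1 ∩ T.1).card 1 with h3 | h3
    · left
      have : (S.1 ∩ T.1).card = 0 := by omega
      rw [this]; norm_num
    · right
      have : (S.1 ∩ T.1).card = 1 := by omega
      rw [this]; norm_num
  obtain ⟨s, hs, hsc⟩ := proj x hnorm 0 (1 / 2) (by norm_num) (by norm_num) hoff z hz0 _ hz hone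
  rw [← hcard, ← hsc]
  exact le_g hs

theorem sq_lt_of_g_lt {d n : ℕ} (hd : 3 ≤ d) (h : g (d - 1) < n) : d * d < 2 * n + d := by
  obtain ⟨m, rfl⟩ : ∃ m, d = m + 1 := ⟨d - 1, by omega⟩
  simp only [Nat.add_sub_cancel] at h
  have h1 := choose_le_g (m := m) (by omega)
  have h2 : (m + 1).choose 2 * 2 = (m + 1) * m := by
    have := Nat.triangle_succ m
    rw [Nat.choose_two_right]
    simp only [Nat.add_sub_cancel]
    refine Nat.div_mul_cancel ?_
    rw [mul_comm]
    exact (Nat.even_mul_succ_self m).two_dvd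
  nlinarith

end Pool.Agent.MP_0a9180_co
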