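import Mathlib

/-!
Definitions for `MP_0a9180_co`: biangular lines, congruence of line systems, infinite families and
spherical two-distance sets.
-/

namespace Pool.Agent.MP_0a9180_co

open scoped RealInnerProductSpace

/-- The unit vectors `x 0, …, x (n-1)` of `ℝ^d` span `n` pairwise distinct lines, and all inner
products of two different ones lie in `{α, -α, β, -β}` for some reals `α`, `β`. -/
def IsBiangular {n d : ℕ} (x : Fin n → EuclideanSpace ℝ (Fin d)) : Prop :=
  (∀ i, ‖x i‖ = 1) ∧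
  (∀ i j, i ≠ j → Submodule.span ℝ {x i} ≠ Submodule.span ℝ {x j}) ∧
  ∃ α β : ℝ, ∀ i j, i ≠ j →
    ⟪x i, x j⟫ = α ∨ ⟪x i, x j⟫ = -α ∨ ⟪x i, x j⟫ = β ∨ ⟪x i, x j⟫ = -β

/-- The set of lines spanned by the vectors `x i`. -/
def lines {n d : ℕ} (x : Fin n → EuclideanSpace ℝ (Fin d)) :
    Set (Submodule ℝ (EuclideanSpace ℝ (Fin d))) :=
  Set.range fun i => Submodule.span ℝ {x i}

/-- Some orthogonal transformation of `ℝ^d` carries the lines of `x` onto the lines of `y`. -/
def Congruent {n d : ℕ} (x y : Fin n → EuclideanSpace ℝ (Fin d)) : Prop :=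
  ∃ U : EuclideanSpace ℝ (Fin d) ≃ₗᵢ[ℝ] EuclideanSpace ℝ (Fin d),
    (fun L : Submodule ℝ (EuclideanSpace ℝ (Fin d)) => L.map U.toLinearEquiv.toLinearMap) '' lines x
      = lines y

/-- An infinite family of `n` biangular lines in `ℝ^d`, parametrised by the open interval `I`. -/
structure IsInfiniteFamily {n d : ℕ} (I : Set ℝ) (x : ℝ → Fin n → EuclideanSpace ℝ (Fin d)) :
    Prop where
  isOpen : IsOpen I
  nonempty : I.Nonempty
  ordConnected : I.OrdConnected
  biangular : ∀ h ∈ I, IsBiangular (x h)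
  continuous : ∀ i, ContinuousOn (fun h => x h i) I
  not_congruent : ∀ h ∈ I, ∀ h' ∈ I, h ≠ h' → ¬ Congruent (x h) (x h')

/-- A spherical two-distance set in `ℝ^m`: finitely many unit vectors whose pairwise inner products
take at most two values. -/
def IsTwoDistance {m : ℕ} (s : Finset (EuclideanSpace ℝ (Fin m))) : Prop :=
  (∀ x ∈ s, ‖x‖ = 1) ∧ ∃ α β : ℝ, ∀ x ∈ s, ∀ y ∈ s, x ≠ y → ⟪x, y⟫ = α ∨ ⟪x, y⟫ = β

/-- The largest cardinality of a spherical two-distance set in `ℝ^m`. -/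
noncomputable def g (m : ℕ) : ℕ :=
  sSup {k : ℕ | ∃ s : Finset (EuclideanSpace ℝ (Fin m)), IsTwoDistance s ∧ s.card = k}

end Pool.Agent.MP_0a9180_co
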