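import Pool.Agent.Lib.MP_0a9180_co.Spectral

namespace Pool.Agent.MP_0a9180_co

open scoped RealInnerProductSpace
open Finset

variable {n d : ℕ}

/-- Equal Gram matrices give congruent line systems. -/
theorem congruent_of_gram (x y : Fin n → EuclideanSpace ℝ (Fin d))
    (h : ∀ i j, ⟪x i, x j⟫ = ⟪y i, y j⟫) : Congruent x y := by
  classical
  let T : (Fin n → ℝ) →ₗ[ℝ] EuclideanSpace ℝ (Fin d) := Fintype.linearCombination ℝ x
  let T' : (Fin n → ℝ) →ₗ[ℝ] EuclideanSpace ℝ (Fin d) := Fintype.linearCombination ℝ y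
  have hT : ∀ v, T v = ∑ i, v i • x i := fun v => Fintype.linearCombination_apply ℝ x v
  have hT' : ∀ v, T' v = ∑ i, v i • y i := fun v => Fintype.linearCombination_apply ℝ y v
  have hnorm : ∀ v, ‖T' v‖ = ‖T v‖ := by
    intro v
    have h1 : ‖T' v‖ ^ 2 = ‖T v‖ ^ 2 := by
      rw [← real_inner_self_eq_norm_sq, ← real_inner_self_eq_norm_sq, hT, hT']
      simp only [sum_inner, inner_sum, inner_smul_left, inner_smul_right, h]
    exact (sq_eq_sq₀ (norm_nonneg _) (norm_nonneg _)).1 h1
  obtain ⟨L, hL⟩ := exists_ginv T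
  let S := LinearMap.range T
  let φ : S →ₗ[ℝ] EuclideanSpace ℝ (Fin d) := T' ∘ₗ L ∘ₗ S.subtype
  have hφn : ∀ w, ‖φ w‖ = ‖w‖ := by
    rintro ⟨w, v, rfl⟩
    have h1 : φ ⟨T v, v, rfl⟩ = T' (L (T v)) := rfl
    rw [h1, hnorm, hL]
    rfl
  let φi : S →ₗᵢ[ℝ] EuclideanSpace ℝ (Fin d) := ⟨φ, hφn⟩
  let U := φi.extend.toLinearIsometryEquiv rfl
  have hU : ∀ i, U (x i) = y i := by
    intro i
    have hTe : T (Pi.single i 1) = x i := by
      rw [hT]
      simp [Pi.single_apply]
    have hTe' : T' (Pi.single i 1) = y i := by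
      rw [hT']
      simp [Pi.single_apply]
    have h1 : U (x i) = φi.extend (x i) := rfl
    have hmem : x i ∈ S := ⟨_, hTe⟩
    have h2 : φi.extend ((⟨x i, hmem⟩ : S) : EuclideanSpace ℝ (Fin d)) = φi ⟨x i, hmem⟩ :=
      φi.extend_apply _
    rw [h1]
    change φi.extend ((⟨x i, hmem⟩ : S) : EuclideanSpace ℝ (Fin d)) = _
    rw [h2]
    change T' (L (x i)) = y i
    rw [← hTe, ← hTe']
    have h3 : T' (L (T (Pi.single i 1)) - Pi.single i 1) = 0 := by
      rw [← norm_eq_zero, hnorm, map_sub, hL, sub_self, norm_zero]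
    rw [map_sub, sub_eq_zero] at h3
    exact h3
  refine ⟨U, ?_⟩
  unfold lines
  rw [← Set.range_comp]
  congr 1
  funext i
  simp only [Function.comp_apply]
  rw [Submodule.map_span, Set.image_singleton]
  congr 2
  exact hU i

/-- Distinct lines have inner product less than one in modulus. -/
theorem inner_sq_lt_one {x y : EuclideanSpace ℝ (Fin d)} (hx : ‖x‖ = 1) (hy : ‖y‖ = 1)
    (h : Submodule.span ℝ {x} ≠ Submodule.span ℝ {y}) : ⟪x, y⟫ ^ 2 < 1 := by
  have h1 : |⟪x, y⟫| ≤ 1 := by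
    have := abs_real_inner_le_norm x y
    rwa [hx, hy, one_mul] at this
  have h2 : ⟪x, y⟫ ^ 2 ≤ 1 := by
    rw [← sq_abs]
    have := abs_nonneg ⟪x, y⟫
    nlinarith
  rcases h2.lt_or_eq with h3 | h3
  · exact h3
  · exfalso
    have h4 : (⟪x, y⟫ - 1) * (⟪x, y⟫ + 1) = 0 := by linear_combination h3
    rcases mul_eq_zero.1 h4 with h5 | h5
    · have : x = y := (inner_eq_one_iff_of_norm_eq_one (𝕜 := ℝ) hx hy).1 (by linarith)
      exact h (by rw [this])
    · have : x = -y := by
        refine (inner_eq_one_iff_of_norm_eq_one (𝕜 := ℝ) hx (by rw [norm_neg, hy])).1 ?_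
        rw [inner_neg_right]; linarith
      apply h
      rw [this, ← Set.neg_singleton, Submodule.span_neg]

/-- The finite set of eigenvalues. -/
theorem finite_eig (C : Fin n → Fin n → ℝ) :
    {a : ℝ | ∃ v : Fin n → ℝ, v ≠ 0 ∧ ∀ i, ∑ j, C i j * v j = a * v i}.Finite := by
  classical
  refine (Module.End.finite_hasEigenvalue (Matrix.toLin' (Matrix.of C))).subset ?_
  rintro a ⟨v, hv, h⟩
  refine Module.End.hasEigenvalue_of_hasEigenvector (x := v) ?_
  rw [Module.End.hasEigenvector_iff, Module.End.mem_eigenspace_iff]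
  refine ⟨?_, hv⟩
  funext i
  rw [Matrix.toLin'_apply]
  simpa [Matrix.mulVec, dotProduct] using h i

/-- Core argument for infinitely many systems sharing a sign pattern. -/
theorem core (hd : 7 ≤ d) (hn : d * d < 2 * n + d) {ι : Type*} [Infinite ι]
    (x : ι → Fin n → EuclideanSpace ℝ (Fin d)) (A B : Fin n → Fin n → ℝ)
    (hunit : ∀ k i, ‖x k i‖ = 1)
    (hlines : ∀ k i j, i ≠ j → Submodule.span ℝ {x k i} ≠ Submodule.span ℝ {x k j})
    (hAs : ∀ i j, A i j = A j i) (hBs : ∀ i j, B i j = B j i)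
    (hA0 : ∀ i, A i i = 0) (hB0 : ∀ i, B i i = 0)
    (hAB : ∀ i j, i ≠ j → (A i j = 0 ∧ B i j ^ 2 = 1) ∨ (B i j = 0 ∧ A i j ^ 2 = 1))
    (α β : ι → ℝ)
    (hG : ∀ k i j, ⟪x k i, x k j⟫ = (if i = j then 1 else 0) + α k * A i j + β k * B i j)
    (hncong : ∀ k l, k ≠ l → ¬ Congruent (x k) (x l)) :
    ∃ s : Finset (EuclideanSpace ℝ (Fin (d - 1))), IsTwoDistance s ∧ s.card = n := by
  classical
  -- (2) the parameters separate the systems
  have hsep : ∀ k l, k ≠ l → ¬ (α k = α l ∧ β k = β l) := by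
    rintro k l hkl ⟨h1, h2⟩
    refine hncong k l hkl (congruent_of_gram _ _ fun i j => ?_)
    rw [hG, hG, h1, h2]
  -- relations in the kernel
  have hrel : ∀ k (v : Fin n → ℝ), ∑ i, v i • x k i = 0 →
      ∀ i, v i + α k * ∑ j, A i j * v j + β k * ∑ j, B i j * v j = 0 := by
    intro k v hv i
    have h1 : ⟪x k i, ∑ j, v j • x k j⟫ = 0 := by rw [hv, inner_zero_right]
    rw [inner_sum] at h1
    simp_rw [inner_smul_right, hG] at h1
    rw [← h1, Finset.mul_sum, Finset.mul_sum]
    have h2 : v i = ∑ j, v j * (if i = j then 1 else 0) := by simp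
    conv_lhs => rw [h2]
    rw [← Finset.sum_add_distrib, ← Finset.sum_add_distrib]
    refine Finset.sum_congr rfl fun j _ => by ring
  have hnsq : ∀ k (v : Fin n → ℝ), ‖∑ i, v i • x k i‖ ^ 2
      = (∑ i, v i * v i) + α k * (∑ i, ∑ j, v i * (A i j * v j)) + β k * (∑ i, ∑ j, v i * (B i j * v j)) := by
    intro k v
    rw [← real_inner_self_eq_norm_sq]
    simp only [sum_inner, inner_sum, inner_smul_left, inner_smul_right, hG, conj_trivial]
    have h2 : ∑ i, v i * v i = ∑ i, ∑ j, v i * (v j * (if i = j then 1 else 0)) := by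
      refine Finset.sum_congr rfl fun i _ => by simp
    rw [h2, Finset.mul_sum, Finset.mul_sum, ← Finset.sum_add_distrib, ← Finset.sum_add_distrib]
    refine Finset.sum_congr rfl fun i _ => ?_
    rw [Finset.mul_sum, Finset.mul_sum, Finset.mul_sum, ← Finset.sum_add_distrib,
      ← Finset.sum_add_distrib]
    refine Finset.sum_congr rfl fun j _ => ?_
    by_cases hij : i = j
    · subst hij
      simp
      ring
    · rw [if_neg hij, if_neg (Ne.symm hij), hAs j i, hBs j i]; ring
  -- (3) common kernel vectors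
  have hcommon : ∀ k l, ∃ v : Fin n → ℝ, v ≠ 0 ∧ ∑ i, v i • x k i = 0 ∧ ∑ i, v i • x l i = 0 := by
    intro k l
    let T : (Fin n → ℝ) →ₗ[ℝ] (EuclideanSpace ℝ (Fin d) × EuclideanSpace ℝ (Fin d)) :=
      (Fintype.linearCombination ℝ (x k)).prod (Fintype.linearCombination ℝ (x l))
    have hker : LinearMap.ker T ≠ ⊥ := by
      apply LinearMap.ker_ne_bot_of_finrank_lt
      rw [Module.finrank_prod]
      simp
      nlinarith
    obtain ⟨v, hv, hv0⟩ := (Submodule.ne_bot_iff _).1 hker
    have h1 := LinearMap.mem_ker.1 hv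
    refine ⟨v, hv0, ?_, ?_⟩
    · have := congrArg Prod.fst h1
      simpa [T, Fintype.linearCombination_apply] using this
    · have := congrArg Prod.snd h1
      simpa [T, Fintype.linearCombination_apply] using this
  -- (4) both patterns occur
  obtain ⟨k₁, k₂, hk12⟩ := exists_pair_ne ι
  obtain ⟨v₀, hv₀, hv₁, hv₂⟩ := hcommon k₁ k₂
  have hAne : ∃ i j, A i j ≠ 0 := by
    by_contra hcon
    push Not at hcon
    have h1 := hrel k₁ v₀ hv₁
    have h2 := hrel k₂ v₀ hv₂
    simp only [hcon, zero_mul, Finset.sum_const_zero, mul_zero, add_zero] at h1 h2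
    have h3 : β k₁ ≠ β k₂ := by
      intro h3
      refine hncong k₁ k₂ hk12 (congruent_of_gram _ _ fun i j => ?_)
      rw [hG, hG, hcon, h3]; ring
    apply hv₀
    funext i
    have e1 := h1 i
    have e2 := h2 i
    have e3 : (β k₁ - β k₂) * ∑ j, B i j * v₀ j = 0 := by linear_combination e1 - e2
    have e4 := (mul_eq_zero.1 e3).resolve_left (sub_ne_zero.2 h3)
    rw [e4, mul_zero, add_zero] at e1
    exact e1
  have hBne : ∃ i j, B i j ≠ 0 := by
    by_contra hcon
    push Not at hcon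
    have h1 := hrel k₁ v₀ hv₁
    have h2 := hrel k₂ v₀ hv₂
    simp only [hcon, zero_mul, Finset.sum_const_zero, mul_zero, add_zero] at h1 h2
    have h3 : α k₁ ≠ α k₂ := by
      intro h3
      refine hncong k₁ k₂ hk12 (congruent_of_gram _ _ fun i j => ?_)
      rw [hG, hG, hcon, h3]; ring
    apply hv₀
    funext i
    have e1 := h1 i
    have e2 := h2 i
    have e3 : (α k₁ - α k₂) * ∑ j, A i j * v₀ j = 0 := by linear_combination e1 - e2
    have e4 := (mul_eq_zero.1 e3).resolve_left (sub_ne_zero.2 h3)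
    rw [e4, mul_zero, add_zero] at e1
    exact e1
  -- (5) determinants
  have hdet : ∀ k l, k ≠ l → α k * β l - β k * α l ≠ 0 := by
    intro k l hkl hzero
    obtain ⟨v, hv0, hvk, hvl⟩ := hcommon k l
    have h1 := hrel k v hvk
    have h2 := hrel l v hvl
    obtain ⟨i, hi⟩ : ∃ i, v i ≠ 0 := by
      by_contra hcon
      push Not at hcon
      exact hv0 (funext hcon)
    have e1 := h1 i
    have e2 := h2 i
    set p := ∑ j, A i j * v j
    set q := ∑ j, B i j * v j
    -- `(β l - β k) v = 0` and `(α l - α k) v = 0`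
    have e3 : (β l - β k) * v i = 0 := by
      linear_combination β l * e1 - β k * e2 - p * hzero
    have e4 : (α l - α k) * v i = 0 := by
      linear_combination α l * e1 - α k * e2 + q * hzero
    refine hsep k l hkl ⟨?_, ?_⟩
    · have := (mul_eq_zero.1 e4).resolve_right hi
      linarith
    · have := (mul_eq_zero.1 e3).resolve_right hi
      linarith
  -- (6) eigenvalue pairs
  have heig : ∀ k l, k ≠ l → ∃ a b : ℝ, (∃ v : Fin n → ℝ, v ≠ 0 ∧ ∀ i, ∑ j, A i j * v j = a * v i) ∧
      (∃ v : Fin n → ℝ, v ≠ 0 ∧ ∀ i, ∑ j, B i j * v j = b * v i) ∧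
      1 + a * α k + b * β k = 0 ∧ 1 + a * α l + b * β l = 0 := by
    intro k l hkl
    have hd0 := hdet k l hkl
    obtain ⟨v, hv0, hvk, hvl⟩ := hcommon k l
    have h1 := hrel k v hvk
    have h2 := hrel l v hvl
    set D := α k * β l - β k * α l with hD
    refine ⟨(β k - β l) / D, (α l - α k) / D, ⟨v, hv0, ?_⟩, ⟨v, hv0, ?_⟩, ?_, ?_⟩
    · intro i
      have e1 := h1 i
      have e2 := h2 i
      rw [div_mul_eq_mul_div, eq_div_iff hd0, hD]
      linear_combination β l * e1 - β k * e2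
    · intro i
      have e1 := h1 i
      have e2 := h2 i
      rw [div_mul_eq_mul_div, eq_div_iff hd0, hD]
      linear_combination α k * e2 - α l * e1
    · field_simp
      rw [hD]; ring
    · field_simp
      rw [hD]; ring
  -- (8) three systems on a common line
  obtain ⟨k₀⟩ : Nonempty ι := inferInstance
  obtain ⟨l₁, l₂, hl12, h01, h02, a, b, hline0, hline1, hline2⟩ : ∃ l₁ l₂ : ι, l₁ ≠ l₂ ∧ l₁ ≠ k₀ ∧ l₂ ≠ k₀ ∧
      ∃ a b : ℝ, 1 + a * α k₀ + b * β k₀ = 0 ∧ 1 + a * α l₁ + b * β l₁ = 0 ∧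
        1 + a * α l₂ + b * β l₂ = 0 := by
    have hinf : Infinite {l : ι // l ≠ k₀} := by
      have := (Set.finite_singleton k₀).infinite_compl (α := ι)
      exact this.to_subtype
    have hfA := (finite_eig A).to_subtype
    have hfB := (finite_eig B).to_subtype
    have hch : ∀ l : {l : ι // l ≠ k₀}, ∃ p : {a : ℝ | ∃ v : Fin n → ℝ, v ≠ 0 ∧ ∀ i, ∑ j, A i j * v j = a * v i} ×
        {b : ℝ | ∃ v : Fin n → ℝ, v ≠ 0 ∧ ∀ i, ∑ j, B i j * v j = b * v i},
        1 + (p.1 : ℝ) * α k₀ + (p.2 : ℝ) * β k₀ = 0 ∧ 1 + (p.1 : ℝ) * α l.1 + (p.2 : ℝ) * β l.1 = 0 := by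
      rintro ⟨l, hl⟩
      obtain ⟨a, b, ha, hb, h1, h2⟩ := heig k₀ l (Ne.symm hl)
      exact ⟨(⟨a, ha⟩, ⟨b, hb⟩), h1, h2⟩
    choose f hf using hch
    obtain ⟨l₁, l₂, hne, heq⟩ := Finite.exists_ne_map_eq_of_infinite f
    refine ⟨l₁.1, l₂.1, fun h => hne (Subtype.ext h), l₁.2, l₂.2, (f l₁).1, (f l₁).2,
      (hf l₁).1, (hf l₁).2, ?_⟩
    rw [heq]
    exact (hf l₂).2
  -- the line is genuine
  have hab : 0 < a ^ 2 + b ^ 2 := by
    rcases (add_nonneg (sq_nonneg a) (sq_nonneg b)).lt_or_eq with h | h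
    · exact h
    · exfalso
      have ha : a = 0 := by nlinarith [sq_nonneg a, sq_nonneg b]
      have hb : b = 0 := by nlinarith [sq_nonneg a, sq_nonneg b]
      rw [ha, hb] at hline0
      norm_num at hline0
  set t : ι → ℝ := fun k => -b * α k + a * β k with ht
  -- (9) the middle system
  have hmid : ∀ k₁ k k₃ : ι, k₁ ≠ k₃ → 1 + a * α k₁ + b * β k₁ = 0 → 1 + a * α k + b * β k = 0 →
      1 + a * α k₃ + b * β k₃ = 0 → t k₁ < t k → t k < t k₃ →
      ∃ s : Finset (EuclideanSpace ℝ (Fin (d - 1))), IsTwoDistance s ∧ s.card = n := by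
    intro k₁ k k₃ h13 e1 e e3 ht1 ht3
    have hker : ∀ v : Fin n → ℝ, ∑ i, v i • x k i = 0 →
        ∀ i, (∑ j, A i j * v j = a * v i) ∧ (∑ j, B i j * v j = b * v i) := by
      intro v hv
      have hconv : (t k₃ - t k) * ‖∑ i, v i • x k₁ i‖ ^ 2 + (t k - t k₁) * ‖∑ i, v i • x k₃ i‖ ^ 2
          = (t k₃ - t k₁) * ‖∑ i, v i • x k i‖ ^ 2 := by
        rw [hnsq, hnsq, hnsq]
        set V := ∑ i, v i * v i
        set p := ∑ i, ∑ j, v i * (A i j * v j)
        set q := ∑ i, ∑ j, v i * (B i j * v j)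
        have hα : (t k₃ - t k) * α k₁ + (t k - t k₁) * α k₃ = (t k₃ - t k₁) * α k := by
          have : (a ^ 2 + b ^ 2) * ((t k₃ - t k) * α k₁ + (t k - t k₁) * α k₃ - (t k₃ - t k₁) * α k) = 0 := by
            have f1 : (a ^ 2 + b ^ 2) * α k₁ = -a - b * t k₁ := by
              simp only [ht]; linear_combination a * e1
            have f2 : (a ^ 2 + b ^ 2) * α k = -a - b * t k := by
              simp only [ht]; linear_combination a * e
            have f3 : (a ^ 2 + b ^ 2) * α k₃ = -a - b * t k₃ := by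
              simp only [ht]; linear_combination a * e3
            linear_combination (t k₃ - t k) * f1 + (t k - t k₁) * f3 - (t k₃ - t k₁) * f2
          have := (mul_eq_zero.1 this).resolve_left hab.ne'
          linarith
        have hβ : (t k₃ - t k) * β k₁ + (t k - t k₁) * β k₃ = (t k₃ - t k₁) * β k := by
          have : (a ^ 2 + b ^ 2) * ((t k₃ - t k) * β k₁ + (t k - t k₁) * β k₃ - (t k₃ - t k₁) * β k) = 0 := by
            have f1 : (a ^ 2 + b ^ 2) * β k₁ = -b + a * t k₁ := by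
              simp only [ht]; linear_combination b * e1
            have f2 : (a ^ 2 + b ^ 2) * β k = -b + a * t k := by
              simp only [ht]; linear_combination b * e
            have f3 : (a ^ 2 + b ^ 2) * β k₃ = -b + a * t k₃ := by
              simp only [ht]; linear_combination b * e3
            linear_combination (t k₃ - t k) * f1 + (t k - t k₁) * f3 - (t k₃ - t k₁) * f2
          have := (mul_eq_zero.1 this).resolve_left hab.ne'
          linarith
        linear_combination p * hα + q * hβ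
      rw [hv, norm_zero] at hconv
      have hp1 : 0 < t k₃ - t k := by linarith
      have hp3 : 0 < t k - t k₁ := by linarith
      have hz1 : ‖∑ i, v i • x k₁ i‖ ^ 2 = 0 := by
        have h1 := mul_nonneg hp1.le (sq_nonneg ‖∑ i, v i • x k₁ i‖)
        have h3 := mul_nonneg hp3.le (sq_nonneg ‖∑ i, v i • x k₃ i‖)
        have h4 : (t k₃ - t k) * ‖∑ i, v i • x k₁ i‖ ^ 2 = 0 := by
          have : (t k₃ - t k₁) * (0 : ℝ) ^ 2 = 0 := by ring
          linarith
        exact (mul_eq_zero.1 h4).resolve_left hp1.ne'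
      have hz3 : ‖∑ i, v i • x k₃ i‖ ^ 2 = 0 := by
        have h4 : (t k - t k₁) * ‖∑ i, v i • x k₃ i‖ ^ 2 = 0 := by
          rw [hz1] at hconv
          linarith
        exact (mul_eq_zero.1 h4).resolve_left hp3.ne'
      have hy1 : ∑ i, v i • x k₁ i = 0 := by
        rw [← norm_eq_zero]
        simpa using hz1
      have hy3 : ∑ i, v i • x k₃ i = 0 := by
        rw [← norm_eq_zero]
        simpa using hz3
      intro i
      have g1 := hrel k₁ v hy1 i
      have g3 := hrel k₃ v hy3 i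
      have hd0 := hdet k₁ k₃ h13
      set p := ∑ j, A i j * v j
      set q := ∑ j, B i j * v j
      constructor
      · have : (α k₁ * β k₃ - β k₁ * α k₃) * (p - a * v i) = 0 := by
          linear_combination β k₃ * (g1 - v i * e1) - β k₁ * (g3 - v i * e3)
        have := (mul_eq_zero.1 this).resolve_left hd0
        linarith
      · have : (α k₁ * β k₃ - β k₁ * α k₃) * (q - b * v i) = 0 := by
          linear_combination α k₁ * (g3 - v i * e3) - α k₃ * (g1 - v i * e1)
        have := (mul_eq_zero.1 this).resolve_left hd0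
        linarith
    refine from_mid hd hn (x k) A B hAs hBs hA0 hB0 hAB hAne hBne (α k) (β k) a b (hG k) e ?_ ?_
      (fun v hv i => (hker v hv i).1) (fun v hv i => (hker v hv i).2)
    · obtain ⟨i, j, hij⟩ := hAne
      have hne : i ≠ j := by
        rintro rfl
        exact hij (hA0 i)
      rcases hAB i j hne with ⟨h1, _⟩ | ⟨h1, h2⟩
      · exact absurd h1 hij
      · have h3 := inner_sq_lt_one (hunit k i) (hunit k j) (hlines k i j hne)
        rw [hG, if_neg hne, h1] at h3
        have : (0 + α k * A i j + β k * 0) ^ 2 = α k ^ 2 * A i j ^ 2 := by ring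
        rw [this, h2, mul_one] at h3
        exact h3
    · obtain ⟨i, j, hij⟩ := hBne
      have hne : i ≠ j := by
        rintro rfl
        exact hij (hB0 i)
      rcases hAB i j hne with ⟨h1, h2⟩ | ⟨h1, _⟩
      · have h3 := inner_sq_lt_one (hunit k i) (hunit k j) (hlines k i j hne)
        rw [hG, if_neg hne, h1] at h3
        have : (0 + α k * 0 + β k * B i j) ^ 2 = β k ^ 2 * B i j ^ 2 := by ring
        rw [this, h2, mul_one] at h3
        exact h3
      · exact absurd h1 hij
  -- the parameters along the line are distinct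
  have htne : ∀ k l, k ≠ l → 1 + a * α k + b * β k = 0 → 1 + a * α l + b * β l = 0 → t k ≠ t l := by
    intro k l hkl e1 e2 hteq
    simp only [ht] at hteq
    refine hsep k l hkl ⟨?_, ?_⟩
    · have : (a ^ 2 + b ^ 2) * (α k - α l) = 0 := by linear_combination a * (e1 - e2) - b * hteq
      have := (mul_eq_zero.1 this).resolve_left hab.ne'
      linarith
    · have : (a ^ 2 + b ^ 2) * (β k - β l) = 0 := by linear_combination b * (e1 - e2) + a * hteq
      have := (mul_eq_zero.1 this).resolve_left hab.ne'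
      linarith
  have t01 := htne k₀ l₁ (Ne.symm h01) hline0 hline1
  have t02 := htne k₀ l₂ (Ne.symm h02) hline0 hline2
  have t12 := htne l₁ l₂ hl12 hline1 hline2
  rcases lt_or_gt_of_ne t01 with a1 | a1 <;> rcases lt_or_gt_of_ne t02 with a2 | a2 <;>
    rcases lt_or_gt_of_ne t12 with a3 | a3
  · exact hmid k₀ l₁ l₂ (Ne.symm h02) hline0 hline1 hline2 a1 a3
  · exact hmid k₀ l₂ l₁ (Ne.symm h01) hline0 hline2 hline1 a2 a3
  · linarith
  · exact hmid l₂ k₀ l₁ hl12.symm hline2 hline0 hline1 a2 a1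
  · exact hmid l₁ k₀ l₂ hl12 hline1 hline0 hline2 a1 a2
  · linarith
  · exact hmid l₁ l₂ k₀ h01 hline1 hline2 hline0 a3 a2
  · exact hmid l₂ l₁ k₀ h02 hline2 hline1 hline0 a3 a1

end Pool.Agent.MP_0a9180_co
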