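import Pool.Agent.Lib.MP_0a9180_co.Four

namespace Pool.Agent.MP_0a9180_co

open Finset

variable {n d : ℕ}

theorem sum_two {β : Type*} [AddCommMonoid β] (f : Fin d → β) (l1 l2 : Fin d) (h12 : l1 ≠ l2)
    (h : ∀ l, l ≠ l1 → l ≠ l2 → f l = 0) : ∑ l, f l = f l1 + f l2 := by
  classical
  rw [← Finset.sum_subset (Finset.subset_univ ({l1, l2} : Finset (Fin d)))]
  · rw [Finset.sum_pair h12]
  · intro l _ hl
    simp only [Finset.mem_insert, Finset.mem_singleton, not_or] at hl
    exact h l hl.1 hl.2

theorem PM.cases {r : Fin n → Fin d → ℝ} {s t : Fin d → ℝ} {u v : ℝ} (hP : PM r s u)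
    (hM : PM r t v) {i j : Fin n} (hij : i ≠ j) : F r s i j = F r t i j ∨ F r s i j = - F r t i j := by
  apply sq_eq_sq_iff_eq_or_eq_neg.1
  rw [hP.off i j hij, hM.off i j hij]

/-- Rank two case with `c ≠ 1`. -/
theorem rank_two_ne {r : Fin n → Fin d → ℝ} {s t : Fin d → ℝ} {u v : ℝ} (h : Two r s t u v)
    (hn : 6 ≤ n) (hu : 1 < u) (hv : 1 < v) (c : ℝ) (hc0 : 0 < c)
    (hc : c ^ 2 * (v ^ 2 - 1) = u ^ 2 - 1) (hc1 : c ≠ 1)
    (l1 l2 : Fin d) (h12 : l1 ≠ l2) (hl : ∀ l, l ≠ l1 → l ≠ l2 → s l = c * t l) : False := by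
  have hK : ∀ i j, F r s i j - c * F r t i j
      = (s l1 - c * t l1) * (r i l1 * r j l1) + (s l2 - c * t l2) * (r i l2 * r j l2) := by
    intro i j
    rw [F_sub, sum_two _ l1 l2 h12]
    intro l h1 h2
    rw [hl l h1 h2]; ring
  have hprod : (u - c * v) * (u + c * v) = (1 - c) * (1 + c) := by nlinarith
  have hbig : 1 + c < u + c * v := by nlinarith
  have hνsq : (u - c * v) ^ 2 < (1 - c) ^ 2 := by
    have h1 : ((u - c * v) * (u + c * v)) ^ 2 = ((1 - c) * (1 + c)) ^ 2 := by rw [hprod]
    have h2 : (1 + c) ^ 2 < (u + c * v) ^ 2 := by nlinarith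
    have h3 : 0 < (1 - c) ^ 2 := by
      have : 1 - c ≠ 0 := fun h0 => hc1 (by linarith)
      positivity
    by_contra hcon
    have hcon' : (1 - c) ^ 2 ≤ (u - c * v) ^ 2 := not_lt.1 hcon
    have h4 : (1 - c) ^ 2 * (1 + c) ^ 2 < (u - c * v) ^ 2 * (u + c * v) ^ 2 := by
      have h5 : (1 - c) ^ 2 * (1 + c) ^ 2 < (1 - c) ^ 2 * (u + c * v) ^ 2 :=
        mul_lt_mul_of_pos_left h2 h3
      have h6 : (1 - c) ^ 2 * (u + c * v) ^ 2 ≤ (u - c * v) ^ 2 * (u + c * v) ^ 2 :=
        mul_le_mul_of_nonneg_right hcon' (sq_nonneg _)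
      linarith
    rw [mul_pow, mul_pow] at h1
    linarith
  have hν : u - c * v ≠ 0 := by
    intro h0
    rw [h0, zero_mul] at hprod
    rcases mul_eq_zero.1 hprod.symm with h1 | h1
    · exact hc1 (by linarith)
    · linarith
  refine minors hn (fun i j => F r s i j - c * F r t i j) (u - c * v) ((1 - c) ^ 2)
    ((1 + c) ^ 2) hν hνsq ?_ ?_ ?_
  · nlinarith
  · intro i j hij
    have ho := h.M.off i j hij
    rcases h.P.cases h.M hij with h1 | h1
    · left
      simp only [h1]
      linear_combination (1 - c) ^ 2 * ho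
    · right
      simp only [h1]
      linear_combination (1 + c) ^ 2 * ho
  · intro i j k _ _ _
    have e1 : F r s i i - c * F r t i i = u - c * v := by rw [h.P.diag, h.M.diag]
    have e2 : F r s j j - c * F r t j j = u - c * v := by rw [h.P.diag, h.M.diag]
    have e3 : F r s k k - c * F r t k k = u - c * v := by rw [h.P.diag, h.M.diag]
    have det0 : (F r s i i - c * F r t i i) * (F r s j j - c * F r t j j) * (F r s k k - c * F r t k k)
        + 2 * (F r s i j - c * F r t i j) * (F r s j k - c * F r t j k) * (F r s i k - c * F r t i k)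
        - (F r s k k - c * F r t k k) * (F r s i j - c * F r t i j) ^ 2
        - (F r s i i - c * F r t i i) * (F r s j k - c * F r t j k) ^ 2
        - (F r s j j - c * F r t j j) * (F r s i k - c * F r t i k) ^ 2 = 0 := by
      simp only [hK]
      ring
    rw [e1, e2, e3] at det0
    linear_combination det0

/-- Rank two case with `c = 1`. -/
theorem rank_two_eq {r : Fin n → Fin d → ℝ} {s t : Fin d → ℝ} {u v : ℝ} (h : Two r s t u v)
    (hn : d * d < 2 * n + d) (hu : 1 < u) (hv : 1 < v)
    (hs : ∀ l, 0 < s l) (ht : ∀ l, 0 < t l)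
    (hc : v ^ 2 - 1 = u ^ 2 - 1)
    (l1 l2 : Fin d) (h12 : l1 ≠ l2) (hl1 : s l1 < t l1) (hl2 : t l2 < s l2)
    (hl : ∀ l, l ≠ l1 → l ≠ l2 → s l = t l) : False := by
  classical
  have huv : u = v := by nlinarith
  subst huv
  have hu2 : 1 < u ^ 2 := by nlinarith
  have hd0 : 0 < d := Fin.pos l1
  -- cardinalities
  have hcard : ∀ l0 : Fin d, ((univ.erase l0).sym2).card < n := by
    intro l0
    have h1 := two_mul_card_sym2 ((univ : Finset (Fin d)).erase l0)
    rw [Finset.card_erase_of_mem (Finset.mem_univ _), Finset.card_univ, Fintype.card_fin] at h1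
    have h4 : (d - 1) * (d - 1 + 1) + d = d * d := by
      obtain ⟨e, he⟩ : ∃ e, d = e + 1 := ⟨d - 1, by omega⟩
      rw [he]
      simp only [Nat.add_sub_cancel]
      ring
    omega
  have hdiff : ∀ y : Fin n → ℝ, ∑ l, ∑ m, (s l * s m - t l * t m) * Q r y l m ^ 2 = 0 := by
    intro y
    have := h.diff 1 (by rw [one_pow, one_mul]) y
    simpa using this
  have hw0 : s l1 * s l2 = t l1 * t l2 := by
    rcases lt_trichotomy (s l1 * s l2) (t l1 * t l2) with hlt | heq | hgt
    · exfalso
      obtain ⟨y, hy, hyQ⟩ := exists_Q_zero r _ (hcard l1)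
      refine no_small h.P hu2 (fun l m => s l * s m - t l * t m) _ ?_ y hy hyQ (le_of_eq (hdiff y).symm)
      have key : ∀ m, s l1 * s m - t l1 * t m < 0 := by
        intro m
        by_cases hm1 : m = l1
        · rw [hm1]
          nlinarith [hs l1, ht l1]
        by_cases hm2 : m = l2
        · rw [hm2]; linarith
        rw [hl m hm1 hm2]
        nlinarith [ht m]
      intro l m hlm
      rw [Finset.mk_mem_sym2_iff] at hlm
      simp only [Finset.mem_erase, Finset.mem_univ, and_true, not_and_or, not_not] at hlm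
      rcases hlm with rfl | rfl
      · exact key m
      · have := key l
        linarith
    · exact heq
    · exfalso
      obtain ⟨y, hy, hyQ⟩ := exists_Q_zero r _ (hcard l2)
      refine no_small h.M hu2 (fun l m => t l * t m - s l * s m) _ ?_ y hy hyQ ?_
      · have key : ∀ m, t l2 * t m - s l2 * s m < 0 := by
          intro m
          by_cases hm1 : m = l2
          · rw [hm1]
            nlinarith [hs l2, ht l2]
          by_cases hm2 : m = l1
          · rw [hm2]; linarith
          rw [hl m hm2 hm1]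
          nlinarith [ht m]
        intro l m hlm
        rw [Finset.mk_mem_sym2_iff] at hlm
        simp only [Finset.mem_erase, Finset.mem_univ, and_true, not_and_or, not_not] at hlm
        rcases hlm with rfl | rfl
        · exact key m
        · have := key l
          linarith
      · have h1 := hdiff y
        have h2 : ∑ l, ∑ m, (t l * t m - s l * s m) * Q r y l m ^ 2
            = - ∑ l, ∑ m, (s l * s m - t l * t m) * Q r y l m ^ 2 := by
          rw [← Finset.sum_neg_distrib]
          refine Finset.sum_congr rfl fun l _ => ?_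
          rw [← Finset.sum_neg_distrib]
          refine Finset.sum_congr rfl fun m _ => by ring
        rw [h2, h1]; simp
  -- the special vector
  obtain ⟨y, hy, hyQ⟩ := exists_Q_zero r _ (hcard l1)
  have hyQ' : ∀ l m, l ≠ l1 → m ≠ l1 → Q r y l m = 0 := by
    intro l m h1 h2
    apply hyQ
    simp [h1, h2]
  -- all entries vanish except `(l1, l2)`
  have hrest : ∀ m, m ≠ l2 → Q r y l1 m = 0 := by
    have hkey : ∀ m, m ≠ l2 → s l1 * s m - t l1 * t m < 0 := by
      intro m hm2
      by_cases hm1 : m = l1
      · rw [hm1]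
        nlinarith [hs l1, ht l1]
      rw [hl m hm1 hm2]
      nlinarith [ht m]
    intro m hm
    by_contra hq
    have hterm : ∀ l m, (s l * s m - t l * t m) * Q r y l m ^ 2 ≤ 0 := by
      have hle : ∀ m, s l1 * s m - t l1 * t m ≤ 0 := by
        intro m
        by_cases hm2 : m = l2
        · rw [hm2]; linarith
        · exact (hkey m hm2).le
      intro l m
      by_cases h1 : l = l1
      · rw [h1]
        exact mul_nonpos_of_nonpos_of_nonneg (hle m) (sq_nonneg _)
      by_cases h2 : m = l1
      · rw [h2]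
        have := hle l
        exact mul_nonpos_of_nonpos_of_nonneg (by linarith) (sq_nonneg _)
      rw [hyQ' l m h1 h2]; simp
    have hlt : (s l1 * s m - t l1 * t m) * Q r y l1 m ^ 2 < 0 :=
      mul_neg_of_neg_of_pos (hkey m hm) (by positivity)
    have h1 : ∑ m, (s l1 * s m - t l1 * t m) * Q r y l1 m ^ 2 < 0 :=
      Finset.sum_neg' (fun m _ => hterm l1 m) ⟨m, Finset.mem_univ _, hlt⟩
    have h2 : ∑ l, ∑ m, (s l * s m - t l * t m) * Q r y l m ^ 2 < 0 :=
      Finset.sum_neg' (fun l _ => Finset.sum_nonpos fun m _ => hterm l m) ⟨l1, Finset.mem_univ _, h1⟩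
    have := hdiff y
    linarith
  have hQ0 : ∀ l m, ¬ (l = l1 ∧ m = l2) → ¬ (l = l2 ∧ m = l1) → Q r y l m = 0 := by
    intro l m h1 h2
    by_cases h3 : l = l1
    · rw [h3]
      exact hrest m fun h4 => h1 ⟨h3, h4⟩
    by_cases h4 : m = l1
    · rw [h4, Q_symm]
      exact hrest l fun h5 => h2 ⟨h5, h4⟩
    exact hyQ' l m h3 h4
  -- evaluation of double sums
  have hdouble : ∀ (f : Fin d → Fin d → ℝ), ∑ l, ∑ m, f l m * Q r y l m
      = (f l1 l2 + f l2 l1) * Q r y l1 l2 := by
    intro f
    rw [sum_two _ l1 l2 h12]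
    · rw [sum_two _ l1 l2 h12, sum_two _ l1 l2 h12, hQ0 l1 l1 (by simp [h12]) (by simp [h12]),
        hQ0 l2 l2 (by simp [h12.symm]) (by simp [h12.symm]), Q_symm r y l2 l1]
      · ring
      · intro l h1 h2
        rw [hQ0 l2 l (by simp [h12.symm]) (by simp [h1]), mul_zero]
      · intro l h1 h2
        rw [hQ0 l1 l (by simp [h2]) (by simp [h12]), mul_zero]
    · intro l h1 h2
      refine Finset.sum_eq_zero fun m _ => ?_
      rw [hQ0 l m (by simp [h1]) (by simp [h2]), mul_zero]
  have hrow : ∀ (a b : Fin d → ℝ) (i : Fin n), ∑ j, y j * (F r a i j * F r b i j)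
      = (a l1 * b l2 + a l2 * b l1) * (r i l1 * r i l2) * Q r y l1 l2 := by
    intro a b i
    rw [sum_mul_F_mul_F, hdouble]
    ring
  have hsum0 : ∑ i, y i = 0 := by
    have h1 : ∑ i, y i * F r s i i = ∑ l, s l * Q r y l l := by
      unfold F Q
      simp_rw [Finset.mul_sum]
      rw [Finset.sum_comm]
      refine Finset.sum_congr rfl fun l _ => Finset.sum_congr rfl fun i _ => by ring
    have h2 : ∑ l, s l * Q r y l l = 0 := by
      refine Finset.sum_eq_zero fun l _ => ?_
      rw [hQ0 l l, mul_zero]
      · rintro ⟨h3, h4⟩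
        exact h12 (h3 ▸ h4)
      · rintro ⟨h3, h4⟩
        exact h12 (h4 ▸ h3)
    rw [h2] at h1
    simp_rw [h.P.diag] at h1
    rw [← Finset.sum_mul] at h1
    rcases mul_eq_zero.1 h1 with h3 | h3
    · exact h3
    · linarith
  have hyi : ∀ i, (u ^ 2 - 1) * y i = 2 * s l1 * s l2 * Q r y l1 l2 * (r i l1 * r i l2) := by
    intro i
    have h1 := h.P.row y i
    rw [hsum0, hrow] at h1
    linarith
  -- the two derived forms
  set τ : Fin d → ℝ := fun l => (s l - t l) / 2 with hτ
  set μ : Fin d → ℝ := fun l => (s l + t l) / 2 with hμ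
  have hT : ∀ i j, F r τ i j = (F r s i j - F r t i j) / 2 := by
    intro i j
    unfold F
    rw [← Finset.sum_sub_distrib, Finset.sum_div]
    refine Finset.sum_congr rfl fun l _ => by rw [hτ]; ring
  have hU : ∀ i j, F r μ i j = (F r s i j + F r t i j) / 2 := by
    intro i j
    unfold F
    rw [← Finset.sum_add_distrib, Finset.sum_div]
    refine Finset.sum_congr rfl fun l _ => by rw [hμ]; ring
  have hTform : ∀ i j, F r τ i j = τ l1 * (r i l1 * r j l1) + τ l2 * (r i l2 * r j l2) := by
    intro i j
    unfold F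
    rw [sum_two _ l1 l2 h12]
    intro l h1 h2
    simp only [hτ]
    rw [hl l h1 h2]; ring
  have hμ1 : 0 < μ l1 := by simp only [hμ]; linarith [hs l1, ht l1]
  have hμ2 : 0 < μ l2 := by simp only [hμ]; linarith [hs l2, ht l2]
  have hτ1 : τ l1 < 0 := by simp only [hτ]; linarith
  have hτ2 : 0 < τ l2 := by simp only [hτ]; linarith
  have hcross : μ l1 * τ l2 + μ l2 * τ l1 = 0 := by
    simp only [hμ, hτ]
    linarith
  have hTii : ∀ i, F r τ i i = 0 := by
    intro i
    rw [hT, h.P.diag, h.M.diag]; ring
  have hUii : ∀ i, F r μ i i = u := by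
    intro i
    rw [hU, h.P.diag, h.M.diag]; ring
  have hbal : ∀ i, μ l1 * r i l1 ^ 2 = μ l2 * r i l2 ^ 2 := by
    intro i
    have h1 := hTii i
    rw [hTform] at h1
    have h2 : τ l1 * (μ l1 * r i l1 ^ 2 - μ l2 * r i l2 ^ 2) = 0 := by
      linear_combination μ l1 * h1 - r i l2 ^ 2 * hcross
    have := (mul_eq_zero.1 h2).resolve_left hτ1.ne
    linarith
  have hTform2 : ∀ i j, μ l1 * F r τ i j = τ l1 * (μ l1 * (r i l1 * r j l1) - μ l2 * (r i l2 * r j l2)) := by
    intro i j
    rw [hTform]
    linear_combination (r i l2 * r j l2) * hcross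
  have hpm : ∀ i j, μ l1 * (r i l1 * r j l1) = μ l2 * (r i l2 * r j l2) ∨
      μ l1 * (r i l1 * r j l1) = - (μ l2 * (r i l2 * r j l2)) := by
    intro i j
    apply sq_eq_sq_iff_eq_or_eq_neg.1
    have h1 := hbal i
    have h2 := hbal j
    calc (μ l1 * (r i l1 * r j l1)) ^ 2 = (μ l1 * r i l1 ^ 2) * (μ l1 * r j l1 ^ 2) := by ring
      _ = (μ l2 * r i l2 ^ 2) * (μ l2 * r j l2 ^ 2) := by rw [h1, h2]
      _ = (μ l2 * (r i l2 * r j l2)) ^ 2 := by ring
  -- the form supported off `l1, l2`
  set ν : Fin d → ℝ := fun l => if l = l1 ∨ l = l2 then 0 else μ l with hν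
  have hνnonneg : ∀ l, 0 ≤ ν l := by
    intro l
    simp only [hν]
    split_ifs
    · exact le_refl 0
    · simp only [hμ]
      linarith [hs l, ht l]
  have hN : ∀ i j, F r μ i j = F r ν i j + μ l1 * (r i l1 * r j l1) + μ l2 * (r i l2 * r j l2) := by
    intro i j
    have h1 : F r μ i j - F r ν i j = μ l1 * (r i l1 * r j l1) + μ l2 * (r i l2 * r j l2) := by
      unfold F
      rw [← Finset.sum_sub_distrib, sum_two _ l1 l2 h12]
      · simp [hν]
      · intro l h2 h3
        simp [hν, h2, h3]
    linarith
  have hNrow : ∀ i, ∑ j, y j * (F r ν i j * F r ν i j) = 0 := by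
    intro i
    rw [hrow]
    simp [hν]
  have hνii : ∀ i, F r ν i i = 0 → ∀ j, F r ν i j = 0 := by
    intro i hi j
    have h1 : ∀ l, ν l * (r i l * r i l) = 0 := by
      unfold F at hi
      have := (Finset.sum_eq_zero_iff_of_nonneg (fun l _ => mul_nonneg (hνnonneg l) (mul_self_nonneg (r i l)))).1 hi
      intro l
      exact this l (Finset.mem_univ _)
    unfold F
    refine Finset.sum_eq_zero fun l _ => ?_
    rcases mul_eq_zero.1 (h1 l) with h2 | h2
    · rw [h2, zero_mul]
    · rw [mul_self_eq_zero.1 h2]; ring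
  -- off-diagonal alternatives
  have halt : ∀ i j, i ≠ j → (F r τ i j = 0 ∧ F r μ i j ^ 2 = 1 ∧ F r s i j = F r t i j) ∨
      (F r μ i j = 0 ∧ F r τ i j ^ 2 = 1 ∧ F r s i j = - F r t i j) := by
    intro i j hij
    have ho := h.M.off i j hij
    rcases h.P.cases h.M hij with h1 | h1
    · left
      refine ⟨by rw [hT, h1]; ring, ?_, h1⟩
      rw [hU, h1]
      linear_combination ho
    · right
      refine ⟨by rw [hU, h1]; ring, ?_, h1⟩
      rw [hT, h1]
      linear_combination ho
  -- the diagonal of the `ν` form vanishes where `y` does not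
  have hstep : ∀ i, y i ≠ 0 → F r ν i i = 0 := by
    intro i hi
    have hterm : ∀ j, 0 ≤ y i * (y j * (F r ν i j * F r ν i j)) := by
      intro j
      by_cases hij : i = j
      · rw [← hij]
        nlinarith [mul_self_nonneg (y i * F r ν i i)]
      rcases hpm i j with h1 | h1
      · -- same class
        have h2 : 0 ≤ y i * y j := by
          have e1 := hyi i
          have e2 := hyi j
          set c := 2 * s l1 * s l2 * Q r y l1 l2 with hcdef
          have e3 : (u ^ 2 - 1) ^ 2 * (y i * y j) = c ^ 2 * ((r i l1 * r i l2) * (r j l1 * r j l2)) := by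
            calc (u ^ 2 - 1) ^ 2 * (y i * y j) = ((u ^ 2 - 1) * y i) * ((u ^ 2 - 1) * y j) := by ring
              _ = _ := by rw [e1, e2]; ring
          have e4 : 0 ≤ (r i l1 * r i l2) * (r j l1 * r j l2) := by
            have e5 : μ l1 * ((r i l1 * r i l2) * (r j l1 * r j l2)) = μ l2 * (r i l2 * r j l2) ^ 2 := by
              calc μ l1 * ((r i l1 * r i l2) * (r j l1 * r j l2))
                  = (μ l1 * (r i l1 * r j l1)) * (r i l2 * r j l2) := by ring
                _ = _ := by rw [h1]; ring
            by_contra hcon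
            have hcon' := not_le.1 hcon
            have := mul_neg_of_pos_of_neg hμ1 hcon'
            rw [e5] at this
            have := mul_nonneg hμ2.le (sq_nonneg (r i l2 * r j l2))
            linarith
          by_contra hcon
          have hcon' := not_le.1 hcon
          have e6 : 0 < (u ^ 2 - 1) ^ 2 := by
            have : 0 < u ^ 2 - 1 := by linarith
            positivity
          have e7 := mul_neg_of_pos_of_neg e6 hcon'
          rw [e3] at e7
          have := mul_nonneg (sq_nonneg c) e4
          linarith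
        have h3 := mul_nonneg h2 (mul_self_nonneg (F r ν i j))
        linarith
      · -- opposite class or zero
        have h2 : F r ν i j = 0 ∨ μ l1 * (r i l1 * r j l1) = 0 := by
          by_cases h3 : μ l1 * (r i l1 * r j l1) = 0
          · right; exact h3
          left
          have h4 : F r τ i j ≠ 0 := by
            intro h5
            have h6 := hTform2 i j
            rw [h5, mul_zero] at h6
            have h7 := (mul_eq_zero.1 h6.symm).resolve_left hτ1.ne
            apply h3
            linarith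
          rcases halt i j hij with h5 | h5
          · exact absurd h5.1 h4
          · have h6 := hN i j
            rw [h5.1] at h6
            linarith
        rcases h2 with h2 | h2
        · rw [h2]; simp
        · -- then `y j = 0` or ...
          have h3 : r i l1 * r j l1 = 0 := (mul_eq_zero.1 h2).resolve_left hμ1.ne'
          rcases mul_eq_zero.1 h3 with h4 | h4
          · exfalso
            apply hi
            have e1 := hyi i
            rw [h4] at e1
            have : 0 < u ^ 2 - 1 := by linarith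
            have e2 : (u ^ 2 - 1) * y i = 0 := by rw [e1]; ring
            exact (mul_eq_zero.1 e2).resolve_left this.ne'
          · have e1 := hyi j
            rw [h4] at e1
            have : 0 < u ^ 2 - 1 := by linarith
            have e2 : (u ^ 2 - 1) * y j = 0 := by rw [e1]; ring
            rw [(mul_eq_zero.1 e2).resolve_left this.ne']; simp
    have htot : ∑ j, y i * (y j * (F r ν i j * F r ν i j)) = 0 := by
      rw [← Finset.mul_sum, hNrow, mul_zero]
    have := (Finset.sum_eq_zero_iff_of_nonneg (fun j _ => hterm j)).1 htot i (Finset.mem_univ _)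
    rcases mul_eq_zero.1 this with h1 | h1
    · exact absurd h1 hi
    rcases mul_eq_zero.1 h1 with h2 | h2
    · exact absurd h2 hi
    exact mul_self_eq_zero.1 h2
  have hyne : ∀ j, r j l1 ≠ 0 → Q r y l1 l2 ≠ 0 → y j ≠ 0 := by
    intro j hj hq h0
    have e1 := hyi j
    rw [h0, mul_zero] at e1
    have h2 : r j l2 ≠ 0 := by
      intro h3
      have := hbal j
      rw [h3] at this
      have h4 : μ l1 * r j l1 ^ 2 = 0 := by rw [this]; ring
      rcases mul_eq_zero.1 h4 with h5 | h5
      · exact hμ1.ne' h5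
      · exact hj (by simpa using h5)
    have h3 : 2 * s l1 * s l2 * Q r y l1 l2 * (r j l1 * r j l2) ≠ 0 := by
      have := hs l1
      have := hs l2
      positivity
    exact h3 e1.symm
  -- where `y` is nonzero every off-diagonal entry is of the second kind
  have hall : ∀ i, y i ≠ 0 → ∀ j, i ≠ j → F r τ i j ≠ 0 := by
    intro i hi j hij hT0
    have hNi := hstep i hi
    have hNij := hνii i hNi j
    have hq : Q r y l1 l2 ≠ 0 := by
      intro h0
      apply hi
      have e1 := hyi i
      rw [h0] at e1
      have : 0 < u ^ 2 - 1 := by linarith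
      have e2 : (u ^ 2 - 1) * y i = 0 := by rw [e1]; ring
      exact (mul_eq_zero.1 e2).resolve_left this.ne'
    rcases halt i j hij with h1 | h1
    · have h2 := hN i j
      have h3 := hTform2 i j
      rw [hT0, mul_zero] at h3
      have h4 : μ l1 * (r i l1 * r j l1) = μ l2 * (r i l2 * r j l2) := by
        have := (mul_eq_zero.1 h3.symm).resolve_left hτ1.ne
        linarith
      rw [hNij, ← h4] at h2
      have h5 : F r μ i j = 2 * (μ l1 * (r i l1 * r j l1)) := by linarith
      have h6 : r j l1 ≠ 0 := by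
        intro h0
        rw [h0] at h5
        have := h1.2.1
        rw [h5] at this
        norm_num at this
      have hNj := hstep j (hyne j h6 hq)
      have e1 := hN i i
      have e2 := hN j j
      rw [hUii, hNi] at e1
      rw [hUii, hNj] at e2
      have b1 := hbal i
      have b2 := hbal j
      have e3 : u = 2 * (μ l1 * r i l1 ^ 2) := by linarith
      have e4 : u = 2 * (μ l1 * r j l1 ^ 2) := by linarith
      have e5 : u * u = F r μ i j ^ 2 := by
        calc u * u = (2 * (μ l1 * r i l1 ^ 2)) * (2 * (μ l1 * r j l1 ^ 2)) := by rw [← e3, ← e4]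
          _ = (2 * (μ l1 * (r i l1 * r j l1))) ^ 2 := by ring
          _ = F r μ i j ^ 2 := by rw [← h5]
      rw [h1.2.1] at e5
      nlinarith
    · have := h1.2.1
      rw [hT0] at this
      norm_num at this
  obtain ⟨i, hi⟩ : ∃ i, y i ≠ 0 := by
    by_contra hcon
    push Not at hcon
    exact hy (funext hcon)
  have hq : Q r y l1 l2 ≠ 0 := by
    intro h0
    apply hi
    have e1 := hyi i
    rw [h0] at e1
    have : 0 < u ^ 2 - 1 := by linarith
    have e2 : (u ^ 2 - 1) * y i = 0 := by rw [e1]; ring
    exact (mul_eq_zero.1 e2).resolve_left this.ne'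
  have hally : ∀ j, y j ≠ 0 := by
    intro j
    by_cases hij : i = j
    · rw [← hij]; exact hi
    apply hyne j _ hq
    intro h0
    apply hall i hi j hij
    have h1 : r j l2 = 0 := by
      have := hbal j
      rw [h0] at this
      have h4 : μ l2 * r j l2 ^ 2 = 0 := by rw [← this]; ring
      rcases mul_eq_zero.1 h4 with h5 | h5
      · exact absurd h5 hμ2.ne'
      · simpa using h5
    rw [hTform, h0, h1]; ring
  obtain ⟨a, b, hab, h1⟩ := h.eq
  apply hall a (hally a) b hab
  rw [hT, h1]; ring

end Pool.Agent.MP_0a9180_co
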