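import Mathlib

/-!
Quadratic-form bookkeeping for families of biangular lines.
`r i l` is the `l`-th coordinate of the `i`-th vector.
-/

namespace Pool.Agent.MP_0a9180_co

open Finset

variable {n d : ℕ}

/-- Value of the diagonal form with coefficients `s` at the vectors `r i`, `r j`. -/
def F (r : Fin n → Fin d → ℝ) (s : Fin d → ℝ) (i j : Fin n) : ℝ :=
  ∑ l, s l * (r i l * r j l)

/-- The `(l,m)` entry of `∑ i, y i • (r i)(r i)ᵀ`. -/
def Q (r : Fin n → Fin d → ℝ) (y : Fin n → ℝ) (l m : Fin d) : ℝ :=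
  ∑ i, y i * (r i l * r i m)

theorem F_symm (r : Fin n → Fin d → ℝ) (s : Fin d → ℝ) (i j : Fin n) : F r s i j = F r s j i := by
  unfold F
  refine Finset.sum_congr rfl fun l _ => by ring

theorem Q_symm (r : Fin n → Fin d → ℝ) (y : Fin n → ℝ) (l m : Fin d) : Q r y l m = Q r y m l := by
  unfold Q
  refine Finset.sum_congr rfl fun l _ => by ring

theorem sum_mul_F_mul_F (r : Fin n → Fin d → ℝ) (s t : Fin d → ℝ) (y : Fin n → ℝ) (i : Fin n) :
    ∑ j, y j * (F r s i j * F r t i j) = ∑ l, ∑ m, s l * t m * (r i l * r i m) * Q r y l m := by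
  have h1 : ∀ j, y j * (F r s i j * F r t i j)
      = ∑ l, ∑ m, s l * t m * (r i l * r i m) * (y j * (r j l * r j m)) := by
    intro j
    unfold F
    rw [Finset.sum_mul_sum, Finset.mul_sum]
    refine Finset.sum_congr rfl fun l _ => ?_
    rw [Finset.mul_sum]
    refine Finset.sum_congr rfl fun m _ => by ring
  simp_rw [h1]
  rw [Finset.sum_comm]
  refine Finset.sum_congr rfl fun l _ => ?_
  rw [Finset.sum_comm]
  refine Finset.sum_congr rfl fun m _ => ?_
  unfold Q
  rw [Finset.mul_sum]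

theorem key (r : Fin n → Fin d → ℝ) (s t : Fin d → ℝ) (y : Fin n → ℝ) :
    ∑ i, y i * ∑ j, y j * (F r s i j * F r t i j) = ∑ l, ∑ m, s l * t m * Q r y l m ^ 2 := by
  simp_rw [sum_mul_F_mul_F]
  have h1 : ∀ i, y i * ∑ l, ∑ m, s l * t m * (r i l * r i m) * Q r y l m
      = ∑ l, ∑ m, s l * t m * Q r y l m * (y i * (r i l * r i m)) := by
    intro i
    rw [Finset.mul_sum]
    refine Finset.sum_congr rfl fun l _ => ?_
    rw [Finset.mul_sum]
    refine Finset.sum_congr rfl fun m _ => by ring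
  simp_rw [h1]
  rw [Finset.sum_comm]
  refine Finset.sum_congr rfl fun l _ => ?_
  rw [Finset.sum_comm]
  refine Finset.sum_congr rfl fun m _ => ?_
  rw [← Finset.mul_sum]
  unfold Q
  ring

/-- A form whose diagonal values are `u` and whose off-diagonal values are `±1`. -/
structure PM (r : Fin n → Fin d → ℝ) (s : Fin d → ℝ) (u : ℝ) : Prop where
  diag : ∀ i, F r s i i = u
  off : ∀ i j, i ≠ j → F r s i j ^ 2 = 1

theorem PM.neg {r : Fin n → Fin d → ℝ} {s : Fin d → ℝ} {u : ℝ} (h : PM r s u) :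
    PM r (fun l => - s l) (-u) := by
  have e : ∀ i j, F r (fun l => - s l) i j = - F r s i j := by
    intro i j
    unfold F
    rw [← Finset.sum_neg_distrib]
    refine Finset.sum_congr rfl fun l _ => by ring
  refine ⟨fun i => by rw [e, h.diag], fun i j hij => by rw [e, neg_sq, h.off i j hij]⟩

theorem F_neg (r : Fin n → Fin d → ℝ) (s : Fin d → ℝ) (i j : Fin n) :
    F r (fun l => - s l) i j = - F r s i j := by
  unfold F
  rw [← Finset.sum_neg_distrib]
  refine Finset.sum_congr rfl fun l _ => by ring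

theorem PM.row {r : Fin n → Fin d → ℝ} {s : Fin d → ℝ} {u : ℝ} (h : PM r s u) (y : Fin n → ℝ)
    (i : Fin n) : ∑ j, y j * (F r s i j * F r s i j) = (∑ j, y j) + (u ^ 2 - 1) * y i := by
  classical
  have h1 : ∀ j, y j * (F r s i j * F r s i j) = y j + (if j = i then (u ^ 2 - 1) * y i else 0) := by
    intro j
    by_cases hj : j = i
    · subst hj
      rw [h.diag]
      simp
      ring
    · have := h.off i j (Ne.symm hj)
      rw [← sq, this]
      simp [hj]
  simp_rw [h1]
  rw [Finset.sum_add_distrib]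
  simp

theorem PM.total {r : Fin n → Fin d → ℝ} {s : Fin d → ℝ} {u : ℝ} (h : PM r s u) (y : Fin n → ℝ) :
    ∑ l, ∑ m, s l * s m * Q r y l m ^ 2 = (∑ j, y j) ^ 2 + (u ^ 2 - 1) * ∑ i, y i ^ 2 := by
  rw [← key]
  simp_rw [h.row]
  have : ∀ i, y i * (∑ j, y j + (u ^ 2 - 1) * y i) = y i * (∑ j, y j) + (u ^ 2 - 1) * y i ^ 2 := by
    intro i; ring
  simp_rw [this]
  rw [Finset.sum_add_distrib, ← Finset.sum_mul, ← Finset.mul_sum]
  ring

/-- Counting: fewer than `n` linear conditions on `n` unknowns have a nonzero solution. -/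
theorem exists_ne_zero {κ : Type*} (S : Finset κ) (f : κ → Fin n → ℝ) (h : S.card < n) :
    ∃ y : Fin n → ℝ, y ≠ 0 ∧ ∀ k ∈ S, ∑ i, y i * f k i = 0 := by
  classical
  let L : (Fin n → ℝ) →ₗ[ℝ] (S → ℝ) :=
    { toFun := fun y k => ∑ i, y i * f k i
      map_add' := by
        intro y z
        ext k
        simp [add_mul, Finset.sum_add_distrib]
      map_smul' := by
        intro c y
        ext k
        simp [Finset.mul_sum, mul_assoc] }
  have hker : LinearMap.ker L ≠ ⊥ := by
    apply LinearMap.ker_ne_bot_of_finrank_lt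
    simpa using h
  obtain ⟨y, hy, hy0⟩ := (Submodule.ne_bot_iff _).1 hker
  refine ⟨y, hy0, fun k hk => ?_⟩
  have := congrFun (LinearMap.mem_ker.1 hy) ⟨k, hk⟩
  simpa [L] using this

theorem exists_Q_zero (r : Fin n → Fin d → ℝ) (S : Finset (Sym2 (Fin d))) (h : S.card < n) :
    ∃ y : Fin n → ℝ, y ≠ 0 ∧ ∀ l m, s(l, m) ∈ S → Q r y l m = 0 := by
  obtain ⟨y, hy, h2⟩ := exists_ne_zero S
    (fun k i => Sym2.lift ⟨fun l m => r i l * r i m, fun l m => mul_comm _ _⟩ k) h
  refine ⟨y, hy, fun l m hlm => ?_⟩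
  have := h2 _ hlm
  simpa [Q] using this

theorem exists_Q_zero_sum (r : Fin n → Fin d → ℝ) (S : Finset (Sym2 (Fin d))) (h : S.card + 1 < n) :
    ∃ y : Fin n → ℝ, y ≠ 0 ∧ ∑ i, y i = 0 ∧ ∀ l m, s(l, m) ∈ S → Q r y l m = 0 := by
  classical
  obtain ⟨y, hy, h2⟩ := exists_ne_zero (κ := Option (Sym2 (Fin d))) (insert none (S.map Function.Embedding.some))
    (fun k i => k.elim 1 (fun k => Sym2.lift ⟨fun l m => r i l * r i m, fun l m => mul_comm _ _⟩ k))
    (lt_of_le_of_lt (Finset.card_insert_le _ _) (by simpa using h))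
  refine ⟨y, hy, ?_, fun l m hlm => ?_⟩
  · simpa using h2 none (by simp)
  · have := h2 (some s(l, m)) (by simp [hlm])
    simpa [Q] using this

theorem two_mul_card_sym2 {α : Type*} [DecidableEq α] (s : Finset α) :
    2 * s.sym2.card = s.card * (s.card + 1) := by
  rw [Finset.card_sym2, Nat.choose_two_right]
  have : 2 ∣ (s.card + 1) * (s.card + 1 - 1) := by
    simp only [Nat.add_sub_cancel]
    rw [mul_comm]
    exact (Nat.even_mul_succ_self s.card).two_dvd
  rw [Nat.mul_div_cancel' this]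
  simp [mul_comm]

theorem sum_sq_pos {y : Fin n → ℝ} (hy : y ≠ 0) : 0 < ∑ i, y i ^ 2 := by
  by_contra hcon
  apply hy
  have h0 : ∑ i, y i ^ 2 = 0 := le_antisymm (not_lt.1 hcon) (Finset.sum_nonneg fun i _ => sq_nonneg _)
  funext i
  have := (Finset.sum_eq_zero_iff_of_nonneg (fun i _ => sq_nonneg (y i))).1 h0 i (Finset.mem_univ _)
  simpa using this

end Pool.Agent.MP_0a9180_co
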