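import Pool.Agent.Lib.MP_0a9180_co.Two

namespace Pool.Agent.MP_0a9180_co

open Finset

variable {n d : ℕ}

theorem F_sub (r : Fin n → Fin d → ℝ) (s t : Fin d → ℝ) (c : ℝ) (i j : Fin n) :
    F r s i j - c * F r t i j = ∑ l, (s l - c * t l) * (r i l * r j l) := by
  unfold F
  rw [Finset.mul_sum, ← Finset.sum_sub_distrib]
  refine Finset.sum_congr rfl fun l _ => by ring

/-- The weighted identity for two forms. -/
theorem Two.diff {r : Fin n → Fin d → ℝ} {s t : Fin d → ℝ} {u v : ℝ} (h : Two r s t u v)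
    (c : ℝ) (hc : c ^ 2 * (v ^ 2 - 1) = u ^ 2 - 1) (y : Fin n → ℝ) :
    ∑ l, ∑ m, (s l * s m - c ^ 2 * (t l * t m)) * Q r y l m ^ 2
      = (1 - c ^ 2) * (∑ j, y j) ^ 2 := by
  have h1 := h.P.total y
  have h2 := h.M.total y
  have : ∑ l, ∑ m, (s l * s m - c ^ 2 * (t l * t m)) * Q r y l m ^ 2
      = ∑ l, ∑ m, s l * s m * Q r y l m ^ 2 - c ^ 2 * ∑ l, ∑ m, t l * t m * Q r y l m ^ 2 := by
    rw [Finset.mul_sum, ← Finset.sum_sub_distrib]
    refine Finset.sum_congr rfl fun l _ => ?_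
    rw [Finset.mul_sum, ← Finset.sum_sub_distrib]
    refine Finset.sum_congr rfl fun m _ => by ring
  rw [this, h1, h2, ← hc]
  ring

theorem pair_mem {X Y : Finset (Fin d)} (l m : Fin d)
    (h : s(l, m) ∉ (Xᶜ).sym2 ∪ (X ×ˢ Y).image fun p => s(p.1, p.2)) :
    (l ∈ X ∧ m ∉ Y) ∨ (m ∈ X ∧ l ∉ Y) := by
  classical
  by_contra hcon
  apply h
  rw [Finset.mem_union]
  by_cases hl : l ∈ X
  · have hm : m ∈ Y := by
      by_contra hm
      exact hcon (Or.inl ⟨hl, hm⟩)
    right
    exact Finset.mem_image.2 ⟨(l, m), Finset.mem_product.2 ⟨hl, hm⟩, rfl⟩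
  · by_cases hm : m ∈ X
    · have hl : l ∈ Y := by
        by_contra hl
        exact hcon (Or.inr ⟨hm, hl⟩)
      right
      exact Finset.mem_image.2 ⟨(m, l), Finset.mem_product.2 ⟨hm, hl⟩, Sym2.eq_swap⟩
    · left
      rw [Finset.mk_mem_sym2_iff]
      simp [hl, hm]

theorem card_pairs (X Y : Finset (Fin d)) :
    2 * ((Xᶜ).sym2 ∪ (X ×ˢ Y).image fun p => s(p.1, p.2)).card
      ≤ (d - X.card) * (d - X.card + 1) + 2 * (X.card * Y.card) := by
  classical
  have h1 := two_mul_card_sym2 (Xᶜ)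
  rw [Finset.card_compl, Fintype.card_fin] at h1
  have h2 : ((X ×ˢ Y).image fun p => s(p.1, p.2)).card ≤ X.card * Y.card := by
    refine Finset.card_image_le.trans ?_
    rw [Finset.card_product]
  have h3 := Finset.card_union_le (Xᶜ).sym2 ((X ×ˢ Y).image fun p => s(p.1, p.2))
  have h4 : 2 * ((Xᶜ).sym2 ∪ (X ×ˢ Y).image fun p => s(p.1, p.2)).card
      ≤ 2 * (Xᶜ).sym2.card + 2 * ((X ×ˢ Y).image fun p => s(p.1, p.2)).card := by
    omega
  rw [h1] at h4
  omega

theorem even_sq (d : ℕ) : ∃ e, d * d = d + 2 * e := by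
  induction d with
  | zero => exact ⟨0, rfl⟩
  | succ k ih =>
    obtain ⟨e, he⟩ := ih
    refine ⟨e + k, ?_⟩
    nlinarith

/-- One half of the count in the case where both diagonal values exceed one. -/
theorem half_count {r : Fin n → Fin d → ℝ} {s t : Fin d → ℝ} {u v : ℝ} (h : Two r s t u v)
    (hn : d * d < 2 * n + d) (hu : 1 < u) (hs : ∀ l, 0 < s l) (ht : ∀ l, 0 < t l)
    (c : ℝ) (hc0 : 0 < c) (hc : c ^ 2 * (v ^ 2 - 1) = u ^ 2 - 1)
    (X Y : Finset (Fin d)) (hX : ∀ l, l ∈ X ↔ s l < c * t l) (hY : ∀ l, l ∈ Y ↔ c * t l < s l)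
    {z : ℕ} (hz : X.card + Y.card + z = d) :
    X.card * X.card + 2 * X.card * z ≤ X.card + 2 * Y.card + 2 * z := by
  classical
  by_contra hcon
  have hcard := card_pairs X Y
  have hu2 : 1 < u ^ 2 := by nlinarith
  have hlt : ((Xᶜ).sym2 ∪ (X ×ˢ Y).image fun p => s(p.1, p.2)).card + 1 < n := by
    generalize ((Xᶜ).sym2 ∪ (X ×ˢ Y).image fun p => s(p.1, p.2)).card = C at hcard ⊢
    have hsub : d - X.card = Y.card + z := by omega
    rw [hsub] at hcard
    generalize X.card = x at *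
    generalize Y.card = y at *
    obtain ⟨e, he⟩ := even_sq d
    have hn' : e + 1 ≤ n := by omega
    have : d + 2 * e = (x + y + z) * (x + y + z) := by rw [hz, he]
    nlinarith
  obtain ⟨y, hy, hy0, hyQ⟩ := exists_Q_zero_sum r _ hlt
  refine no_small h.P hu2 (fun l m => s l * s m - c ^ 2 * (t l * t m)) _ ?_ y hy hyQ ?_
  · intro l m hlm
    have key : ∀ l m, l ∈ X → m ∉ Y → s l * s m - c ^ 2 * (t l * t m) < 0 := by
      intro l m hl hm
      have h1 : s l < c * t l := (hX l).1 hl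
      have h2 : s m ≤ c * t m := not_lt.1 fun h3 => hm ((hY m).2 h3)
      have h3 : s l * s m < (c * t l) * (c * t m) := by
        have h4 : s l * s m < (c * t l) * s m := mul_lt_mul_of_pos_right h1 (hs m)
        have h5 : (c * t l) * s m ≤ (c * t l) * (c * t m) :=
          mul_le_mul_of_nonneg_left h2 (mul_pos hc0 (ht l)).le
        linarith
      nlinarith
    rcases pair_mem l m hlm with ⟨h1, h2⟩ | ⟨h1, h2⟩
    · exact key l m h1 h2
    · have := key m l h1 h2
      linarith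
  · rw [h.diff c hc, hy0]
    simp

/-- Rank one case. -/
theorem rank_one {r : Fin n → Fin d → ℝ} {s t : Fin d → ℝ} {u v : ℝ} (h : Two r s t u v)
    (hu : 1 < u) (hs : ∀ l, 0 < s l) (c : ℝ) (hc0 : 0 < c)
    (l0 : Fin d) (hl0 : ∀ l, l ≠ l0 → s l = c * t l) : ProjData r := by
  have hK : ∀ i j, F r s i j - c * F r t i j = (s l0 - c * t l0) * (r i l0 * r j l0) := by
    intro i j
    rw [F_sub, Finset.sum_eq_single l0]
    · intro l _ hl
      rw [hl0 l hl]; ring
    · intro h1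
      exact absurd (Finset.mem_univ _) h1
  obtain ⟨i, j, hij, h1⟩ := h.ne
  have hne : (s l0 - c * t l0) * (r i l0 * r j l0) ≠ 0 := by
    rw [← hK, h1]
    have h2 : F r t i j ≠ 0 := by
      intro h0
      have := h.M.off i j hij
      rw [h0] at this; norm_num at this
    have : -F r t i j - c * F r t i j = - ((1 + c) * F r t i j) := by ring
    rw [this]
    exact neg_ne_zero.2 (mul_ne_zero (by linarith) h2)
  have hτ : s l0 - c * t l0 ≠ 0 := left_ne_zero_of_mul hne
  have hri : r i l0 ≠ 0 := left_ne_zero_of_mul (right_ne_zero_of_mul hne)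
  have hconst : ∀ k, r k l0 ^ 2 = r i l0 ^ 2 := by
    intro k
    have e1 := hK k k
    have e2 := hK i i
    rw [h.P.diag, h.M.diag] at e1 e2
    have : (s l0 - c * t l0) * (r k l0 ^ 2 - r i l0 ^ 2) = 0 := by
      nlinarith
    have := (mul_eq_zero.1 this).resolve_left hτ
    linarith
  refine ⟨s, u, hs, hu, h.P, fun l => if l = l0 then 1 else 0, r i l0 ^ 2, by positivity, fun k => ?_⟩
  rw [← hconst k]
  simp

/-- A matrix with constant diagonal, larger off-diagonal entries of two absolute values and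
vanishing three by three principal minors has size less than six. -/
theorem minors {n : ℕ} (hn : 6 ≤ n) (K : Fin n → Fin n → ℝ)
    (ν p q : ℝ) (hν : ν ≠ 0) (hp : ν ^ 2 < p) (hq : ν ^ 2 < q) (hoff : ∀ i j, i ≠ j → K i j ^ 2 = p ∨ K i j ^ 2 = q)
    (hdet : ∀ i j k, i ≠ j → j ≠ k → i ≠ k →
      ν ^ 3 + 2 * K i j * K j k * K i k - ν * (K i j ^ 2 + K j k ^ 2 + K i k ^ 2) = 0) : False := by
  classical
  have h0 : 0 < n := by omega
  set i0 : Fin n := ⟨0, h0⟩
  -- three indices with the same value of `K i0 j ^ 2`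
  obtain ⟨w, hw, a, b, c, ha, hb, hc, hab, hac, hbc, h1, h2, h3⟩ : ∃ w : ℝ, ν ^ 2 < w ∧
      ∃ a b c : Fin n, i0 ≠ a ∧ i0 ≠ b ∧ i0 ≠ c ∧ a ≠ b ∧ a ≠ c ∧ b ≠ c ∧
        K i0 a ^ 2 = w ∧ K i0 b ^ 2 = w ∧ K i0 c ^ 2 = w := by
    have hsum : ((univ.erase i0).filter fun j => K i0 j ^ 2 = p).card +
        ((univ.erase i0).filter fun j => ¬ K i0 j ^ 2 = p).card = n - 1 := by
      rw [Finset.card_filter_add_card_filter_not, Finset.card_erase_of_mem (Finset.mem_univ _)]
      simp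
    rcases Nat.lt_or_ge 2 ((univ.erase i0).filter fun j => K i0 j ^ 2 = p).card with h | h
    · obtain ⟨a, b, c, ha, hb, hc, hab, hac, hbc⟩ := Finset.two_lt_card_iff.1 h
      simp only [Finset.mem_filter, Finset.mem_erase, Finset.mem_univ, and_true] at ha hb hc
      exact ⟨p, hp, a, b, c, Ne.symm ha.1, Ne.symm hb.1, Ne.symm hc.1, hab, hac, hbc, ha.2, hb.2, hc.2⟩
    · have h' : 2 < ((univ.erase i0).filter fun j => ¬ K i0 j ^ 2 = p).card := by omega
      obtain ⟨a, b, c, ha, hb, hc, hab, hac, hbc⟩ := Finset.two_lt_card_iff.1 h'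
      simp only [Finset.mem_filter, Finset.mem_erase, Finset.mem_univ, and_true] at ha hb hc
      exact ⟨q, hq, a, b, c, Ne.symm ha.1, Ne.symm hb.1, Ne.symm hc.1, hab, hac, hbc,
        (hoff i0 a (Ne.symm ha.1)).resolve_left ha.2, (hoff i0 b (Ne.symm hb.1)).resolve_left hb.2,
        (hoff i0 c (Ne.symm hc.1)).resolve_left hc.2⟩
  have hν2 : 0 < ν ^ 2 := by positivity
  -- the entries among the three
  have hent : ∀ a b : Fin n, i0 ≠ a → i0 ≠ b → a ≠ b → K i0 a ^ 2 = w → K i0 b ^ 2 = w →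
      ν ^ 2 * K a b ^ 2 = (2 * w - ν ^ 2) ^ 2 := by
    intro a b ha hb hab h1 h2
    have hd := hdet i0 a b ha hab hb
    have hlt : ν ^ 2 < K a b ^ 2 := by
      rcases hoff a b hab with h | h <;> rw [h] <;> assumption
    set x := K a b
    set f := K i0 a
    set g := K i0 b
    have hfg : (f * g) ^ 2 = w ^ 2 := by
      rw [mul_pow, h1, h2]; ring
    rcases sq_eq_sq_iff_eq_or_eq_neg.1 hfg with h | h
    · have e1 : (ν - x) * (ν * (ν + x) - 2 * w) = 0 := by
        have : 2 * f * x * g = 2 * (f * g) * x := by ring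
        rw [this, h, h1, h2] at hd
        linear_combination hd
      have e2 : ν - x ≠ 0 := by
        intro h0
        have : x = ν := by linarith
        rw [this] at hlt
        exact lt_irrefl _ hlt
      have e3 := (mul_eq_zero.1 e1).resolve_left e2
      have e4 : ν * x = 2 * w - ν ^ 2 := by linarith
      rw [← e4]; ring
    · have e1 : (ν + x) * (ν * (ν - x) - 2 * w) = 0 := by
        have : 2 * f * x * g = 2 * (f * g) * x := by ring
        rw [this, h, h1, h2] at hd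
        linear_combination hd
      have e2 : ν + x ≠ 0 := by
        intro h0
        have : x = -ν := by linarith
        rw [this] at hlt
        simp at hlt
      have e3 := (mul_eq_zero.1 e1).resolve_left e2
      have e4 : ν * x = -(2 * w - ν ^ 2) := by linarith
      have : ν ^ 2 * x ^ 2 = (ν * x) ^ 2 := by ring
      rw [this, e4]; ring
  have e1 := hent a b ha hb hab h1 h2
  have e2 := hent b c hb hc hbc h2 h3
  have e3 := hent a c ha hc hac h1 h3
  have hd := hdet a b c hab hbc hac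
  set x := K a b
  set y := K b c
  set z := K a c
  set W := 2 * w - ν ^ 2 with hW
  have hWν : ν ^ 2 < W := by rw [hW]; linarith
  -- `X = ν x` etc. satisfy `X ^ 2 = W ^ 2`
  have f1 : (ν * x) ^ 2 = W ^ 2 := by rw [← e1]; ring
  have f2 : (ν * y) ^ 2 = W ^ 2 := by rw [← e2]; ring
  have f3 : (ν * z) ^ 2 = W ^ 2 := by rw [← e3]; ring
  have f4 : (ν ^ 2) ^ 3 + 2 * (ν * x) * (ν * y) * (ν * z) - (ν ^ 2) * ((ν * x) ^ 2 + (ν * y) ^ 2 + (ν * z) ^ 2) = 0 := by
    linear_combination ν ^ 3 * hd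
  rw [f1, f2, f3] at f4
  have f5 : ((ν * x) * (ν * y) * (ν * z)) ^ 2 = (W ^ 3) ^ 2 := by
    have : ((ν * x) * (ν * y) * (ν * z)) ^ 2 = (ν * x) ^ 2 * (ν * y) ^ 2 * (ν * z) ^ 2 := by ring
    rw [this, f1, f2, f3]; ring
  set M := ν ^ 2 with hM
  have f6 : 2 * (ν * x) * (ν * y) * (ν * z) = 2 * ((ν * x) * (ν * y) * (ν * z)) := by ring
  rw [f6] at f4
  rcases sq_eq_sq_iff_eq_or_eq_neg.1 f5 with h | h
  · rw [h] at f4
    have : (W - M) ^ 2 * (2 * W + M) = 0 := by linear_combination f4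
    have h1 : 0 < (W - M) ^ 2 := by
      have : 0 < W - M := by linarith
      positivity
    have h2 : 0 < 2 * W + M := by linarith
    have := mul_pos h1 h2
    linarith
  · rw [h] at f4
    have : (W + M) ^ 2 * (2 * W - M) = 0 := by linear_combination - f4
    have h1 : 0 < (W + M) ^ 2 := by
      have : 0 < W + M := by linarith
      positivity
    have h2 : 0 < 2 * W - M := by linarith
    have := mul_pos h1 h2
    linarith

end Pool.Agent.MP_0a9180_co
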