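import Pool.Agent.Lib.MP_0a9180_co.Family

namespace Pool.Agent.MP_0a9180_co

open scoped RealInnerProductSpace
open Finset

variable {n d : ℕ}

/-- Every biangular system has a sign pattern. -/
theorem exists_pattern (x : Fin n → EuclideanSpace ℝ (Fin d)) (hx : IsBiangular x) :
    ∃ (α β : ℝ) (A B : Fin n → Fin n → SignType),
      (∀ i j, A i j = A j i) ∧ (∀ i j, B i j = B j i) ∧ (∀ i, A i i = 0) ∧ (∀ i, B i i = 0) ∧
      (∀ i j, i ≠ j → (A i j = 0 ∧ B i j ≠ 0) ∨ (B i j = 0 ∧ A i j ≠ 0)) ∧
      (∀ i j, ⟪x i, x j⟫ = (if i = j then 1 else 0) + α * ((A i j : SignType) : ℝ)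
        + β * ((B i j : SignType) : ℝ)) := by
  classical
  obtain ⟨hn, _, α, β, h⟩ := hx
  let A : Fin n → Fin n → SignType := fun i j =>
    if i = j then 0 else if ⟪x i, x j⟫ = α then 1 else if ⟪x i, x j⟫ = -α then -1 else 0
  let B : Fin n → Fin n → SignType := fun i j =>
    if i = j then 0 else if ⟪x i, x j⟫ = α then 0 else if ⟪x i, x j⟫ = -α then 0 else
      if ⟪x i, x j⟫ = β then 1 else -1
  refine ⟨α, β, A, B, ?_, ?_, ?_, ?_, ?_, ?_⟩
  · intro i j
    simp only [A, real_inner_comm (x i) (x j), eq_comm (a := i) (b := j)]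
  · intro i j
    simp only [B, real_inner_comm (x i) (x j), eq_comm (a := i) (b := j)]
  · intro i
    simp [A]
  · intro i
    simp [B]
  · intro i j hij
    simp only [A, B, if_neg hij]
    by_cases h1 : ⟪x i, x j⟫ = α
    · right
      simp [h1]
    · by_cases h2 : ⟪x i, x j⟫ = -α
      · right
        simp only [if_neg h1, if_pos h2]
        simp
      · left
        simp only [if_neg h1, if_neg h2]
        split_ifs <;> simp
  · intro i j
    by_cases hij : i = j
    · subst hij
      simp [A, B, hn]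
    · simp only [A, B, if_neg hij]
      rcases h i j hij with h1 | h1 | h1 | h1
      · simp [h1]
      · by_cases h2 : ⟪x i, x j⟫ = α
        · simp [h2]
        · simp only [if_neg h2, if_pos h1]
          simp [h1]
      · by_cases h2 : ⟪x i, x j⟫ = α
        · simp [h2]
        · by_cases h3 : ⟪x i, x j⟫ = -α
          · simp only [if_neg h2, if_pos h3]
            simp [h3]
          · simp only [if_neg h2, if_neg h3, if_pos h1]
            simp [h1]
      · by_cases h2 : ⟪x i, x j⟫ = α
        · simp [h2]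
        · by_cases h3 : ⟪x i, x j⟫ = -α
          · simp only [if_neg h2, if_pos h3]
            simp [h3]
          · by_cases h4 : ⟪x i, x j⟫ = β
            · simp only [if_neg h2, if_neg h3, if_pos h4]
              simp [h4]
            · simp only [if_neg h2, if_neg h3, if_neg h4]
              simp [h1]

theorem sign_sq {s : SignType} (hs : s ≠ 0) : ((s : SignType) : ℝ) ^ 2 = 1 := by
  cases s with
  | zero => exact absurd rfl hs
  | neg => norm_num
  | pos => norm_num

/-- More than `g (d - 1)` biangular lines in `ℝ^d`, `d ≥ 7`: up to congruence there are only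
finitely many such systems. -/
theorem finite_systems (hd : 7 ≤ d) (hn : g (d - 1) < n)
    (S : Set (Fin n → EuclideanSpace ℝ (Fin d))) (hS : ∀ x ∈ S, IsBiangular x)
    (hS' : ∀ x ∈ S, ∀ y ∈ S, x ≠ y → ¬ Congruent x y) : S.Finite := by
  classical
  by_contra hinf
  have hinf' : Infinite S := Set.infinite_coe_iff.2 hinf
  have hch := fun x : S => exists_pattern x.1 (hS x.1 x.2)
  choose α β A B h1 h2 h3 h4 h5 h6 using hch
  obtain ⟨⟨A', B'⟩, hfib⟩ := Finite.exists_infinite_fiber (fun x : S => (A x, B x))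
  set K := (fun x : S => (A x, B x)) ⁻¹' {(A', B')} with hK
  have hAK : ∀ k : K, A k.1 = A' := fun k => congrArg Prod.fst k.2
  have hBK : ∀ k : K, B k.1 = B' := fun k => congrArg Prod.snd k.2
  obtain ⟨k0⟩ : Nonempty K := inferInstance
  have hlt := sq_lt_of_g_lt (by omega : 3 ≤ d) hn
  obtain ⟨s, hs, hcard⟩ := core hd hlt (ι := K) (fun k => k.1.1)
    (fun i j => ((A' i j : SignType) : ℝ)) (fun i j => ((B' i j : SignType) : ℝ))
    (fun k => (hS k.1.1 k.1.2).1) (fun k => (hS k.1.1 k.1.2).2.1)
    (fun i j => by rw [← hAK k0, h1 k0.1 i j]) (fun i j => by rw [← hBK k0, h2 k0.1 i j])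
    (fun i => by rw [← hAK k0, h3 k0.1 i]; simp) (fun i => by rw [← hBK k0, h4 k0.1 i]; simp)
    (fun i j hij => by
      rw [← hAK k0, ← hBK k0]
      rcases h5 k0.1 i j hij with ⟨h7, h8⟩ | ⟨h7, h8⟩
      · left
        exact ⟨by rw [h7]; simp, sign_sq h8⟩
      · right
        exact ⟨by rw [h7]; simp, sign_sq h8⟩)
    (fun k => α k.1) (fun k => β k.1)
    (fun k i j => by
      rw [← hAK k, ← hBK k]
      exact h6 k.1 i j)
    (fun k l hkl => hS' _ k.1.2 _ l.1.2 (fun h => hkl (Subtype.ext (Subtype.ext h))))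
  have := le_g hs
  omega

/-- Every infinite family of `n` biangular lines in `ℝ^d`, `d ≥ 7`, has `n ≤ g (d - 1)`. -/
theorem family_bound (hd : 7 ≤ d) (I : Set ℝ) (x : ℝ → Fin n → EuclideanSpace ℝ (Fin d))
    (h : IsInfiniteFamily I x) : n ≤ g (d - 1) := by
  by_contra hcon
  have hn : g (d - 1) < n := not_le.1 hcon
  have hrefl : ∀ y : Fin n → EuclideanSpace ℝ (Fin d), Congruent y y := fun y =>
    congruent_of_gram y y fun _ _ => rfl
  have hinj : Set.InjOn x I := by
    intro a ha b hb hab
    by_contra hne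
    apply h.not_congruent a ha b hb hne
    rw [hab]
    exact hrefl _
  have hfin : (x '' I).Finite := by
    refine finite_systems hd hn _ ?_ ?_
    · rintro _ ⟨a, ha, rfl⟩
      exact h.biangular a ha
    · rintro _ ⟨a, ha, rfl⟩ _ ⟨b, hb, rfl⟩ hab
      exact h.not_congruent a ha b hb fun e => hab (by rw [e])
  have hI : I.Finite := hfin.of_finite_image hinj
  obtain ⟨a, ha⟩ := h.nonempty
  have hnhds : I ∈ nhds a := h.isOpen.mem_nhds ha
  exact (infinite_of_mem_nhds a hnhds) hI

end Pool.Agent.MP_0a9180_co
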