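import Pool.Agent.Lib.MP_0a9180_co.Defs

namespace Pool.Agent.MP_0a9180_co

open scoped RealInnerProductSpace
open Finset

/-- Projecting along a vector having constant inner product with all the given vectors. -/
theorem proj {ι : Type*} [Fintype ι] {m : ℕ} (x : ι → EuclideanSpace ℝ (Fin (m + 1)))
    (hx : ∀ i, ‖x i‖ = 1) (p q : ℝ) (hp : p < 1) (hq : q < 1)
    (hpq : ∀ i j, i ≠ j → ⟪x i, x j⟫ = p ∨ ⟪x i, x j⟫ = q)
    (z : EuclideanSpace ℝ (Fin (m + 1))) (hz0 : z ≠ 0) (c : ℝ) (hz : ∀ i, ⟪z, x i⟫ = c)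
    (hcard : 1 < Fintype.card ι) :
    ∃ s : Finset (EuclideanSpace ℝ (Fin m)), IsTwoDistance s ∧ s.card = Fintype.card ι := by
  classical
  have hzz : 0 < ‖z‖ ^ 2 := by
    have := norm_pos_iff.2 hz0
    positivity
  set V : Submodule ℝ (EuclideanSpace ℝ (Fin (m + 1))) := (Submodule.span ℝ {z})ᗮ with hV
  have hfin : Module.finrank ℝ V = m := by
    have : Fact (Module.finrank ℝ (EuclideanSpace ℝ (Fin (m + 1))) = m + 1) := ⟨by simp⟩
    exact Submodule.finrank_orthogonal_span_singleton hz0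
  let b := stdOrthonormalBasis ℝ V
  let φ : V ≃ₗᵢ[ℝ] EuclideanSpace ℝ (Fin m) := (b.reindex (finCongr hfin)).repr
  set k : ℝ := c / ‖z‖ ^ 2 with hk
  have hkz : k * ‖z‖ ^ 2 = c := by rw [hk, div_mul_cancel₀ _ hzz.ne']
  have hmem : ∀ i, x i - k • z ∈ V := by
    intro i
    rw [hV, Submodule.mem_orthogonal_singleton_iff_inner_right]
    rw [inner_sub_right, inner_smul_right, hz, real_inner_self_eq_norm_sq, hkz, sub_self]
  let w : ι → V := fun i => ⟨x i - k • z, hmem i⟩
  have hw : ∀ i j, ⟪w i, w j⟫ = ⟪x i, x j⟫ - k ^ 2 * ‖z‖ ^ 2 := by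
    intro i j
    rw [Submodule.coe_inner]
    simp only [w]
    have hz' : ⟪x i, z⟫ = c := by rw [real_inner_comm, hz]
    rw [inner_sub_left, inner_sub_right, inner_sub_right, inner_smul_left, inner_smul_left,
      inner_smul_right, inner_smul_right, real_inner_self_eq_norm_sq, hz, hz']
    simp only [conj_trivial]
    rw [← hkz]; ring
  set ρ : ℝ := 1 - k ^ 2 * ‖z‖ ^ 2 with hρ
  have hwii : ∀ i, ‖w i‖ ^ 2 = ρ := by
    intro i
    rw [← real_inner_self_eq_norm_sq, hw, real_inner_self_eq_norm_sq, hx]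
    norm_num [hρ]
  obtain ⟨i0, j0, hij0⟩ := Fintype.exists_pair_of_one_lt_card hcard
  have hlt1 : ∀ i j, i ≠ j → ⟪x i, x j⟫ < 1 := by
    intro i j hij
    rcases hpq i j hij with h | h <;> rw [h] <;> assumption
  have hρpos : 0 < ρ := by
    rcases (hwii i0 ▸ sq_nonneg ‖w i0‖ : 0 ≤ ρ).lt_or_eq with h | h
    · exact h
    · exfalso
      have h1 : ∀ i, w i = 0 := by
        intro i
        have := hwii i
        rw [← h] at this
        exact norm_eq_zero.1 (by simpa using this)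
      have h2 := hw i0 j0
      rw [h1 i0, inner_zero_left] at h2
      have h3 := hlt1 i0 j0 hij0
      have : ρ = 1 - ⟪x i0, x j0⟫ := by rw [hρ]; linarith
      linarith
  have hsq : (Real.sqrt ρ)⁻¹ * (Real.sqrt ρ)⁻¹ = ρ⁻¹ := by
    rw [← mul_inv, Real.mul_self_sqrt hρpos.le]
  let y : ι → EuclideanSpace ℝ (Fin m) := fun i => φ ((Real.sqrt ρ)⁻¹ • w i)
  have hy : ∀ i j, ⟪y i, y j⟫ = ρ⁻¹ * (⟪x i, x j⟫ - (1 - ρ)) := by
    intro i j
    simp only [y]
    rw [LinearIsometryEquiv.inner_map_map, inner_smul_left, inner_smul_right, hw]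
    simp only [conj_trivial]
    rw [← mul_assoc, hsq, hρ]
    ring
  have hylt : ∀ i j, i ≠ j → ⟪y i, y j⟫ < 1 := by
    intro i j hij
    rw [hy]
    have h1 := hlt1 i j hij
    have h2 : ρ⁻¹ * ρ = 1 := inv_mul_cancel₀ hρpos.ne'
    have h3 : 0 < ρ⁻¹ := inv_pos.2 hρpos
    nlinarith
  have hyn : ∀ i, ‖y i‖ = 1 := by
    intro i
    have h1 : ‖y i‖ ^ 2 = 1 := by
      rw [← real_inner_self_eq_norm_sq, hy, real_inner_self_eq_norm_sq, hx]
      have h2 : ρ⁻¹ * ρ = 1 := inv_mul_cancel₀ hρpos.ne'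
      linarith
    have h2 := norm_nonneg (y i)
    nlinarith
  have hinj : Function.Injective y := by
    intro i j hij
    by_contra hne
    have h1 := hylt i j hne
    rw [hij, real_inner_self_eq_norm_sq, hyn] at h1
    norm_num at h1
  refine ⟨univ.image y, ⟨?_, ρ⁻¹ * (p - (1 - ρ)), ρ⁻¹ * (q - (1 - ρ)), ?_⟩, ?_⟩
  · intro v hv
    obtain ⟨i, _, rfl⟩ := Finset.mem_image.1 hv
    exact hyn i
  · intro v hv v' hv' hvv
    obtain ⟨i, _, rfl⟩ := Finset.mem_image.1 hv
    obtain ⟨j, _, rfl⟩ := Finset.mem_image.1 hv'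
    have hij : i ≠ j := fun h => hvv (by rw [h])
    rw [hy]
    rcases hpq i j hij with h | h
    · left; rw [h]
    · right; rw [h]
  · rw [Finset.card_image_of_injective _ hinj, Finset.card_univ]

/-- The dimension bound making `g` a genuine maximum. -/
theorem two_distance_card_le {m : ℕ} (s : Finset (EuclideanSpace ℝ (Fin m))) (hs : IsTwoDistance s) :
    s.card ≤ m * m + m + 1 := by
  classical
  obtain ⟨hn, α₀, β₀, h0⟩ := hs
  -- inner products of distinct unit vectors are not one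
  have hne1 : ∀ x ∈ s, ∀ y ∈ s, x ≠ y → ⟪x, y⟫ ≠ 1 := by
    intro x hx y hy hxy h
    exact hxy ((inner_eq_one_iff_of_norm_eq_one (𝕜 := ℝ) (hn x hx) (hn y hy)).1 h)
  obtain ⟨α, hα, β, hβ, h1⟩ : ∃ α : ℝ, α ≠ 1 ∧ ∃ β : ℝ, β ≠ 1 ∧
      ∀ x ∈ s, ∀ y ∈ s, x ≠ y → ⟪x, y⟫ = α ∨ ⟪x, y⟫ = β := by
    refine ⟨if α₀ = 1 then 0 else α₀, ?_, if β₀ = 1 then 0 else β₀, ?_, ?_⟩
    · split_ifs with h
      · norm_num
      · exact h
    · split_ifs with h
      · norm_num
      · exact h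
    · intro x hx y hy hxy
      have h2 := hne1 x hx y hy hxy
      rcases h0 x hx y hy hxy with h | h
      · left
        rw [if_neg (by rw [← h]; exact h2), h]
      · right
        rw [if_neg (by rw [← h]; exact h2), h]
  let Φ : s → ((Fin m × Fin m → ℝ) × (Fin m → ℝ) × ℝ) := fun y =>
    (fun p => (y : EuclideanSpace ℝ (Fin m)) p.1 * (y : EuclideanSpace ℝ (Fin m)) p.2,
      fun l => (y : EuclideanSpace ℝ (Fin m)) l, 1)
  have hin : ∀ x y : EuclideanSpace ℝ (Fin m), ⟪x, y⟫ = ∑ l, x l * y l := by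
    intro x y
    rw [PiLp.inner_apply]
    refine Finset.sum_congr rfl fun l _ => ?_
    simp [mul_comm]
  let L : EuclideanSpace ℝ (Fin m) → ((Fin m × Fin m → ℝ) × (Fin m → ℝ) × ℝ) →ₗ[ℝ] ℝ := fun x =>
    { toFun := fun v => ∑ p : Fin m × Fin m, x p.1 * x p.2 * v.1 p - (α + β) * ∑ l, x l * v.2.1 l
        + α * β * v.2.2
      map_add' := by
        intro v w
        simp only [Prod.fst_add, Prod.snd_add, Pi.add_apply, mul_add, Finset.sum_add_distrib]
        ring
      map_smul' := by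
        intro c v
        simp only [Prod.smul_fst, Prod.smul_snd, Pi.smul_apply, smul_eq_mul, RingHom.id_apply]
        have e1 : ∀ p : Fin m × Fin m, x p.1 * x p.2 * (c * v.1 p) = c * (x p.1 * x p.2 * v.1 p) := by
          intro p; ring
        have e2 : ∀ l, x l * (c * v.2.1 l) = c * (x l * v.2.1 l) := by
          intro l; ring
        simp_rw [e1, e2, ← Finset.mul_sum]
        ring }
  have hL : ∀ x y : s, L x (Φ y) = (⟪(x : EuclideanSpace ℝ (Fin m)), y⟫ - α) *
      (⟪(x : EuclideanSpace ℝ (Fin m)), y⟫ - β) := by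
    intro x y
    simp only [L, Φ, LinearMap.coe_mk, AddHom.coe_mk]
    have e1 : ∑ p : Fin m × Fin m, (x : EuclideanSpace ℝ (Fin m)) p.1 * (x : EuclideanSpace ℝ (Fin m)) p.2 *
        ((y : EuclideanSpace ℝ (Fin m)) p.1 * (y : EuclideanSpace ℝ (Fin m)) p.2)
        = ⟪(x : EuclideanSpace ℝ (Fin m)), y⟫ * ⟪(x : EuclideanSpace ℝ (Fin m)), y⟫ := by
      rw [hin, Finset.sum_mul_sum, Fintype.sum_prod_type]
      refine Finset.sum_congr rfl fun l _ => Finset.sum_congr rfl fun m _ => by ring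
    rw [e1, ← hin]
    ring
  have hli : LinearIndependent ℝ Φ := by
    rw [Fintype.linearIndependent_iff]
    intro c hc x
    have h2 := congrArg (L x) hc
    rw [map_sum, map_zero] at h2
    simp_rw [map_smul, hL] at h2
    rw [Finset.sum_eq_single x] at h2
    · rw [real_inner_self_eq_norm_sq, hn x x.2] at h2
      rcases smul_eq_zero.1 h2 with h3 | h3
      · exact h3
      · exfalso
        rcases mul_eq_zero.1 h3 with h4 | h4
        · exact hα (by norm_num at h4; linarith)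
        · exact hβ (by norm_num at h4; linarith)
    · intro y _ hyx
      have h3 := h1 x x.2 y y.2 (fun h => hyx (Subtype.ext h.symm))
      have : (⟪(x : EuclideanSpace ℝ (Fin m)), y⟫ - α) * (⟪(x : EuclideanSpace ℝ (Fin m)), y⟫ - β) = 0 := by
        rcases h3 with h | h <;> rw [h] <;> ring
      rw [this, smul_zero]
    · intro h
      exact absurd (Finset.mem_univ _) h
  have := hli.fintype_card_le_finrank
  rw [Module.finrank_prod, Module.finrank_prod] at this
  simp at this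
  linarith

theorem bdd (m : ℕ) :
    BddAbove {k : ℕ | ∃ s : Finset (EuclideanSpace ℝ (Fin m)), IsTwoDistance s ∧ s.card = k} := by
  refine ⟨m * m + m + 1, ?_⟩
  rintro k ⟨s, hs, rfl⟩
  exact two_distance_card_le s hs

theorem le_g {m : ℕ} {s : Finset (EuclideanSpace ℝ (Fin m))} (hs : IsTwoDistance s) :
    s.card ≤ g m :=
  le_csSup (bdd m) ⟨s, hs, rfl⟩

end Pool.Agent.MP_0a9180_co
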