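import Pool.Agent.Lib.MP_0a9180_co.Forms

namespace Pool.Agent.MP_0a9180_co

open Finset

variable {n d : ℕ}

theorem card_pos_neg (s : Fin d → ℝ) :
    (univ.filter fun l => 0 < s l).card + (univ.filter fun l => s l < 0).card ≤ d := by
  classical
  rw [← Finset.card_union_of_disjoint]
  · exact (Finset.card_le_univ _).trans (by simp)
  · rw [Finset.disjoint_filter]
    intro l _ h1 h2
    linarith

theorem arith_pq {p q d : ℕ} (h : p + q = d) (hp : 1 ≤ p) (hq : 1 ≤ q) :
    p * (p + 1) + q * (q + 1) + 2 * (p * q) = d * d + d ∧ d ≤ p * q + 1 := by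
  subst h
  refine ⟨by ring, ?_⟩
  obtain ⟨p, rfl⟩ : ∃ p', p = p' + 1 := ⟨p - 1, by omega⟩
  obtain ⟨q, rfl⟩ : ∃ q', q = q' + 1 := ⟨q - 1, by omega⟩
  nlinarith [Nat.zero_le (p * q)]

/-- The diagonal value of a form with off-diagonal values `±1` is at least one in modulus. -/
theorem PM.one_le_sq {r : Fin n → Fin d → ℝ} {s : Fin d → ℝ} {u : ℝ} (h : PM r s u)
    (hd : 7 ≤ d) (hn : d * d < 2 * n + d) : 1 ≤ u ^ 2 := by
  classical
  by_contra hu
  have hu' : u ^ 2 < 1 := not_le.1 hu
  set P := univ.filter fun l => 0 < s l with hP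
  set N := univ.filter fun l => s l < 0 with hN
  have hpq : P.card + N.card ≤ d := card_pos_neg s
  let S : Finset (Sym2 (Fin d)) := (P ×ˢ N).image fun p => s(p.1, p.2)
  have hS : S.card ≤ P.card * N.card := by
    refine Finset.card_image_le.trans ?_
    rw [Finset.card_product]
  have hcard : S.card + 1 < n := by
    have h1 : 4 * (P.card * N.card) ≤ d * d := by
      have : 4 * (P.card * N.card) ≤ (P.card + N.card) * (P.card + N.card) := by
        zify
        nlinarith [sq_nonneg ((P.card : ℤ) - N.card)]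
      exact this.trans (Nat.mul_le_mul hpq hpq)
    have h2 : 7 * d ≤ d * d := Nat.mul_le_mul_right _ hd
    omega
  obtain ⟨y, hy, hy0, hyQ⟩ := exists_Q_zero_sum r S hcard
  have htot := h.total y
  rw [hy0] at htot
  have hpos := sum_sq_pos hy
  have hnonneg : 0 ≤ ∑ l, ∑ m, s l * s m * Q r y l m ^ 2 := by
    refine Finset.sum_nonneg fun l _ => Finset.sum_nonneg fun m _ => ?_
    by_cases hlm : s l * s m < 0
    · have hq : Q r y l m = 0 := by
        rcases mul_neg_iff.1 hlm with ⟨h1, h2⟩ | ⟨h1, h2⟩
        · apply hyQ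
          exact Finset.mem_image.2 ⟨(l, m), by simp [hP, hN, h1, h2], rfl⟩
        · apply hyQ
          exact Finset.mem_image.2 ⟨(m, l), by simp [hP, hN, h1, h2], by simp [Sym2.eq_swap]⟩
      simp [hq]
    · exact mul_nonneg (not_lt.1 hlm) (sq_nonneg _)
  rw [htot] at hnonneg
  nlinarith

/-- A form with diagonal value larger than one in modulus is definite. -/
theorem PM.definite {r : Fin n → Fin d → ℝ} {s : Fin d → ℝ} {u : ℝ} (h : PM r s u)
    (hd : 7 ≤ d) (hn : d * d < 2 * n + d) (hu : 1 < u ^ 2)
    (D : Fin d → ℝ) (hD : ∃ l, D l ≠ 0) (hD0 : ∀ i, ∑ l, D l * (r i l * r i l) = 0) :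
    (∀ l, 0 < s l) ∨ (∀ l, s l < 0) := by
  classical
  by_contra hcon
  rw [not_or] at hcon
  obtain ⟨hc1, hc2⟩ := hcon
  set P := univ.filter fun l => 0 < s l with hP
  set N := univ.filter fun l => s l < 0 with hN
  have hpq : P.card + N.card ≤ d := card_pos_neg s
  have hPd : P.card < d := by
    have : P ⊂ univ := by
      rw [Finset.ssubset_univ_iff]
      intro hu
      apply hc1
      intro l
      have : l ∈ P := hu ▸ Finset.mem_univ l
      simpa [hP] using this
    simpa using Finset.card_lt_card this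
  have hNd : N.card < d := by
    have : N ⊂ univ := by
      rw [Finset.ssubset_univ_iff]
      intro hu
      apply hc2
      intro l
      have : l ∈ N := hu ▸ Finset.mem_univ l
      simpa [hN] using this
    simpa using Finset.card_lt_card this
  -- it is enough to find `y ≠ 0` killing all same-sign entries
  have main : ∀ y : Fin n → ℝ, y ≠ 0 → (∀ l m, 0 < s l * s m → Q r y l m = 0) → False := by
    intro y hy hq
    have htot := h.total y
    have hpos := sum_sq_pos hy
    have hnonpos : ∑ l, ∑ m, s l * s m * Q r y l m ^ 2 ≤ 0 := by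
      refine Finset.sum_nonpos fun l _ => Finset.sum_nonpos fun m _ => ?_
      by_cases hlm : 0 < s l * s m
      · simp [hq l m hlm]
      · exact mul_nonpos_of_nonpos_of_nonneg (not_lt.1 hlm) (sq_nonneg _)
    rw [htot] at hnonpos
    nlinarith [sq_nonneg (∑ j, y j)]
  have hmem : ∀ l m, 0 < s l * s m → s(l, m) ∈ P.sym2 ∪ N.sym2 := by
    intro l m hlm
    rw [Finset.mem_union]
    rcases mul_pos_iff.1 hlm with ⟨h1, h2⟩ | ⟨h1, h2⟩
    · left
      simp [hP, h1, h2]
    · right
      simp [hN, h1, h2]
  have hPs := two_mul_card_sym2 P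
  have hNs := two_mul_card_sym2 N
  have hunion : (P.sym2 ∪ N.sym2).card ≤ P.sym2.card + N.sym2.card := Finset.card_union_le _ _
  rcases Nat.lt_or_ge (P.card + N.card) d with hlt | hge
  · have hcard : (P.sym2 ∪ N.sym2).card < n := by
      have h1 : P.card * (P.card + 1) + N.card * (N.card + 1) ≤ (d - 1) * d := by
        obtain ⟨e, rfl⟩ : ∃ e, d = e + 1 := ⟨d - 1, by omega⟩
        have h2 : P.card + N.card ≤ e := by omega
        have h3 : (P.card + N.card) * (P.card + N.card + 1) ≤ e * (e + 1) :=
          Nat.mul_le_mul h2 (by omega)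
        simp only [Nat.add_sub_cancel]
        nlinarith
      have h4 : (d - 1) * d + d = d * d := by
        obtain ⟨e, rfl⟩ : ∃ e, d = e + 1 := ⟨d - 1, by omega⟩
        simp only [Nat.add_sub_cancel]
        ring
      omega
    obtain ⟨y, hy, hyQ⟩ := exists_Q_zero r _ hcard
    exact main y hy fun l m hlm => hyQ l m (hmem l m hlm)
  · have heq : P.card + N.card = d := le_antisymm hpq hge
    obtain ⟨l0, hl0⟩ := hD
    have hall : ∀ l, l ∈ P ∪ N := by
      have hdisj : Disjoint P N := by
        rw [hP, hN, Finset.disjoint_filter]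
        intro l _ h1 h2
        linarith
      have : P ∪ N = univ := by
        apply Finset.eq_univ_of_card
        rw [Finset.card_union_of_disjoint hdisj, heq]
        simp
      intro l
      rw [this]
      exact Finset.mem_univ l
    have hdiag : ∀ l, s(l, l) ∈ P.sym2 ∪ N.sym2 := by
      intro l
      rw [Finset.mem_union]
      rcases Finset.mem_union.1 (hall l) with h1 | h1
      · left
        simp [h1]
      · right
        simp [h1]
    have hcard : ((P.sym2 ∪ N.sym2).erase s(l0, l0)).card < n := by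
      rw [Finset.card_erase_of_mem (hdiag l0)]
      have hp1 : 1 ≤ P.card := by omega
      have hn1 : 1 ≤ N.card := by omega
      obtain ⟨h1, h2⟩ := arith_pq heq hp1 hn1
      have h3 : 0 < (P.sym2 ∪ N.sym2).card := Finset.card_pos.2 ⟨_, hdiag l0⟩
      omega
    obtain ⟨y, hy, hyQ⟩ := exists_Q_zero r _ hcard
    have hQ : ∀ l m, s(l, m) ∈ P.sym2 ∪ N.sym2 → s(l, m) ≠ s(l0, l0) → Q r y l m = 0 :=
      fun l m h1 h2 => hyQ l m (Finset.mem_erase.2 ⟨h2, h1⟩)
    have hsum : ∑ l, D l * Q r y l l = 0 := by
      have : ∀ l, D l * Q r y l l = ∑ i, y i * (D l * (r i l * r i l)) := by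
        intro l
        unfold Q
        rw [Finset.mul_sum]
        refine Finset.sum_congr rfl fun i _ => by ring
      simp_rw [this]
      rw [Finset.sum_comm]
      simp_rw [← Finset.mul_sum, hD0]
      simp
    rw [Finset.sum_eq_single l0] at hsum
    · have hq0 : Q r y l0 l0 = 0 := by
        rcases mul_eq_zero.1 hsum with h1 | h1
        · exact absurd h1 hl0
        · exact h1
      refine main y hy fun l m hlm => ?_
      by_cases heq2 : s(l, m) = s(l0, l0)
      · have : l = l0 ∧ m = l0 := by
          rcases Sym2.eq_iff.1 heq2 with h1 | h1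
          · exact h1
          · exact h1
        rw [this.1, this.2]
        exact hq0
      · exact hQ l m (hmem l m hlm) heq2
    · intro l _ hl
      rw [hQ l l (hdiag l) ?_, mul_zero]
      intro h1
      apply hl
      rcases Sym2.eq_iff.1 h1 with h2 | h2
      · exact h2.1
      · exact h2.1
    · intro h1
      exact absurd (Finset.mem_univ l0) h1

end Pool.Agent.MP_0a9180_co
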