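import Pool.Agent.Lib.MP_0a9180_co.Five

namespace Pool.Agent.MP_0a9180_co

open Finset

variable {n d : ℕ}

theorem case_two {r : Fin n → Fin d → ℝ} {s t : Fin d → ℝ} {u v : ℝ} (h : Two r s t u v)
    (hd : 7 ≤ d) (hn : d * d < 2 * n + d) (hu : 1 < u) (hv : 1 < v)
    (hs : ∀ l, 0 < s l) (ht : ∀ l, 0 < t l) : ProjData r := by
  classical
  have hu2 : 0 < u ^ 2 - 1 := by nlinarith
  have hv2 : 0 < v ^ 2 - 1 := by nlinarith
  obtain ⟨c, hc0, hc⟩ : ∃ c : ℝ, 0 < c ∧ c ^ 2 * (v ^ 2 - 1) = u ^ 2 - 1 := by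
    refine ⟨Real.sqrt ((u ^ 2 - 1) / (v ^ 2 - 1)), Real.sqrt_pos.2 (div_pos hu2 hv2), ?_⟩
    rw [Real.sq_sqrt (div_pos hu2 hv2).le, div_mul_cancel₀ _ hv2.ne']
  have hn6 : 6 ≤ n := by nlinarith
  set X := univ.filter fun l => s l < c * t l with hX
  set Y := univ.filter fun l => c * t l < s l with hY
  have hXm : ∀ l, l ∈ X ↔ s l < c * t l := fun l => by simp [hX]
  have hYm : ∀ l, l ∈ Y ↔ c * t l < s l := fun l => by simp [hY]
  have hXY : X.card + Y.card ≤ d := by
    rw [← Finset.card_union_of_disjoint]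
    · exact (Finset.card_le_univ _).trans (by simp)
    · rw [hX, hY, Finset.disjoint_filter]
      intro l _ h1 h2
      linarith
  obtain ⟨z, hz⟩ : ∃ z, X.card + Y.card + z = d := ⟨d - (X.card + Y.card), by omega⟩
  have hz' : Y.card + X.card + z = d := by omega
  have h1 := half_count h hn hu hs ht c hc0 hc X Y hXm hYm hz
  have hci : c * c⁻¹ = 1 := mul_inv_cancel₀ hc0.ne'
  have hcc : (c⁻¹) ^ 2 * (u ^ 2 - 1) = v ^ 2 - 1 := by
    rw [← hc]
    field_simp
  have h2 := half_count h.symm hn hv ht hs c⁻¹ (inv_pos.2 hc0) hcc Y X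
    (fun l => by
      rw [hYm, ← div_eq_inv_mul, lt_div_iff₀ hc0, mul_comm c]) 
    (fun l => by
      rw [hXm, ← div_eq_inv_mul, div_lt_iff₀ hc0, mul_comm c]) hz'
  obtain ⟨hx1, hy1⟩ := arith_xy (x := X.card) (y := Y.card) (z := z) (by rw [hz]; exact hd) h1 h2
  -- outside `X ∪ Y` the two coefficient vectors are proportional
  have hout : ∀ l, l ∉ X → l ∉ Y → s l = c * t l := by
    intro l hl1 hl2
    rw [hXm] at hl1
    rw [hYm] at hl2
    linarith
  rcases Nat.le_one_iff_eq_zero_or_eq_one.1 hx1 with hx | hx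
  · rw [Finset.card_eq_zero] at hx
    rcases Nat.le_one_iff_eq_zero_or_eq_one.1 hy1 with hy | hy
    · rw [Finset.card_eq_zero] at hy
      exact rank_one h hu hs c hc0 ⟨0, by omega⟩ fun l _ => hout l (by simp [hx]) (by simp [hy])
    · obtain ⟨l0, hl0⟩ := Finset.card_eq_one.1 hy
      exact rank_one h hu hs c hc0 l0 fun l hl => hout l (by simp [hx]) (by simp [hl0, hl])
  · obtain ⟨l1, hl1⟩ := Finset.card_eq_one.1 hx
    rcases Nat.le_one_iff_eq_zero_or_eq_one.1 hy1 with hy | hy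
    · rw [Finset.card_eq_zero] at hy
      exact rank_one h hu hs c hc0 l1 fun l hl => hout l (by simp [hl1, hl]) (by simp [hy])
    · obtain ⟨l2, hl2⟩ := Finset.card_eq_one.1 hy
      have hm1 : s l1 < c * t l1 := (hXm l1).1 (by simp [hl1])
      have hm2 : c * t l2 < s l2 := (hYm l2).1 (by simp [hl2])
      have h12 : l1 ≠ l2 := by
        rintro rfl
        linarith
      have hout' : ∀ l, l ≠ l1 → l ≠ l2 → s l = c * t l := fun l ha hb =>
        hout l (by simp [hl1, ha]) (by simp [hl2, hb])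
      exfalso
      by_cases hc1 : c = 1
      · subst hc1
        refine rank_two_eq h hn hu hv hs ht (by rw [← hc]; ring) l1 l2 h12 (by linarith) (by linarith) ?_
        intro l ha hb
        rw [hout' l ha hb, one_mul]
      · exact rank_two_ne h hn6 hu hv c hc0 hc hc1 l1 l2 h12 hout'

theorem case_pos {r : Fin n → Fin d → ℝ} {s t : Fin d → ℝ} {u v : ℝ} (h : Two r s t u v)
    (hd : 7 ≤ d) (hn : d * d < 2 * n + d) (hu : 1 < u) (hs : ∀ l, 0 < s l) : ProjData r := by
  have hn0 : 0 < n := by nlinarith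
  have hv1 := h.M.one_le_sq hd hn
  rcases eq_or_lt_of_le hv1 with hv | hv
  · exact case_one h hn0 hs hu hv.symm
  · rcases h.symm.definite hd hn hv with ht | ht
    · exact case_two h hd hn hu (pos_diag h.M ht hv hn0) hs ht
    · have h' := h.symm.neg.symm
      have ht' : ∀ l, 0 < (fun l => - t l) l := fun l => by simpa using ht l
      exact case_two h' hd hn hu (pos_diag h'.M ht' (by rw [neg_sq]; exact hv) hn0) hs ht'

theorem case_gt {r : Fin n → Fin d → ℝ} {s t : Fin d → ℝ} {u v : ℝ} (h : Two r s t u v)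
    (hd : 7 ≤ d) (hn : d * d < 2 * n + d) (hu : 1 < u ^ 2) : ProjData r := by
  have hn0 : 0 < n := by nlinarith
  rcases h.definite hd hn hu with hs | hs
  · exact case_pos h hd hn (pos_diag h.P hs hu hn0) hs
  · have hs' : ∀ l, 0 < (fun l => - s l) l := fun l => by simpa using hs l
    exact case_pos h.neg hd hn (pos_diag h.neg.P hs' (by rw [neg_sq]; exact hu) hn0) hs'

/-- Conclusion of the case analysis. -/
theorem main_cases {r : Fin n → Fin d → ℝ} {s t : Fin d → ℝ} {u v : ℝ} (h : Two r s t u v)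
    (hd : 7 ≤ d) (hn : d * d < 2 * n + d) (huv : ¬ (u ^ 2 = 1 ∧ v ^ 2 = 1)) : ProjData r := by
  have hu1 := h.P.one_le_sq hd hn
  have hv1 := h.M.one_le_sq hd hn
  rcases eq_or_lt_of_le hu1 with hu | hu
  · rcases eq_or_lt_of_le hv1 with hv | hv
    · exact absurd ⟨hu.symm, hv.symm⟩ huv
    · exact case_gt h.symm hd hn hv
  · exact case_gt h hd hn hu

end Pool.Agent.MP_0a9180_co
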