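import Pool.Agent.Lib.MP_0a9180_co.Bounds
import Pool.Agent.Lib.MP_0a9180_co.Six

namespace Pool.Agent.MP_0a9180_co

open scoped RealInnerProductSpace
open Finset

/-- A linear map has a generalised inverse. -/
theorem exists_ginv {V E : Type*} [AddCommGroup V] [Module ℝ V] [AddCommGroup E]
    [Module ℝ E] (T : V →ₗ[ℝ] E) :
    ∃ L : E →ₗ[ℝ] V, ∀ v, T (L (T v)) = T v := by
  obtain ⟨g, hg⟩ := LinearMap.exists_rightInverse_of_surjective T.rangeRestrict
    T.range_rangeRestrict
  obtain ⟨L, hL⟩ := LinearMap.exists_extend g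
  refine ⟨L, fun v => ?_⟩
  have h1 : L (T v) = g (T.rangeRestrict v) := by
    rw [← hL]; rfl
  have h2 := LinearMap.congr_fun hg (T.rangeRestrict v)
  rw [h1]
  exact congrArg Subtype.val h2

variable {n d : ℕ}

/-- A symmetric matrix vanishing on the linear relations among the `x i` is a form on `ℝ^d`,
which can be diagonalised orthogonally. -/
theorem diag_form (x : Fin n → EuclideanSpace ℝ (Fin d)) (C : Fin n → Fin n → ℝ)
    (hC : ∀ i j, C i j = C j i)
    (hker : ∀ v : Fin n → ℝ, ∑ i, v i • x i = 0 → ∀ i, ∑ j, C i j * v j = 0) :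
    ∃ (r : Fin n → Fin d → ℝ) (c : Fin d → ℝ), (∀ i j, F r c i j = C i j) ∧
      (∀ i j, ∑ l, r i l * r j l = ⟪x i, x j⟫) := by
  classical
  let T : EuclideanSpace ℝ (Fin n) →ₗ[ℝ] EuclideanSpace ℝ (Fin d) :=
    { toFun := fun v => ∑ i, v i • x i
      map_add' := by
        intro v w
        simp [add_smul, Finset.sum_add_distrib]
      map_smul' := by
        intro c v
        simp [Finset.smul_sum, mul_smul] }
  obtain ⟨L, hL⟩ := exists_ginv T
  have hTe : ∀ j, T (EuclideanSpace.single j 1) = x j := by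
    intro j
    simp [T]
  -- the columns
  have hcol : ∀ i j, ∑ k, C i k * (L (x j)) k = C i j := by
    intro i j
    have h1 : T (L (x j) - EuclideanSpace.single j 1) = 0 := by
      rw [map_sub, ← hTe j, hL, sub_self]
    have h2 := hker (fun k => (L (x j) - EuclideanSpace.single j 1 : EuclideanSpace ℝ (Fin n)) k) h1 i
    simp only [PiLp.sub_apply, mul_sub, Finset.sum_sub_distrib] at h2
    have h3 : ∑ k, C i k * (EuclideanSpace.single j (1 : ℝ) : EuclideanSpace ℝ (Fin n)) k = C i j := by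
      simp
    rw [h3] at h2
    linarith
  let A : EuclideanSpace ℝ (Fin n) →ₗ[ℝ] EuclideanSpace ℝ (Fin n) := Matrix.toEuclideanLin (Matrix.of C)
  have hA : A.IsSymmetric := by
    refine Matrix.isSymmetric_toEuclideanLin_iff.2 ?_
    ext i j
    simp [hC]
  have hAinner : ∀ v w : EuclideanSpace ℝ (Fin n), ⟪A v, w⟫ = ∑ i, (∑ j, C i j * v j) * w i := by
    intro v w
    rw [inner_coord]
    refine Finset.sum_congr rfl fun i _ => ?_
    simp [A, Matrix.toLpLin_apply, Matrix.mulVec, dotProduct]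
  let M : EuclideanSpace ℝ (Fin d) →ₗ[ℝ] EuclideanSpace ℝ (Fin d) := LinearMap.adjoint L ∘ₗ A ∘ₗ L
  have hMin : ∀ v w, ⟪M v, w⟫ = ⟪A (L v), L w⟫ := by
    intro v w
    simp only [M, LinearMap.comp_apply]
    rw [LinearMap.adjoint_inner_left]
  have hM : M.IsSymmetric := by
    intro v w
    rw [hMin, hA (L v) (L w)]
    simp only [M, LinearMap.comp_apply]
    rw [LinearMap.adjoint_inner_right]
  have hMx : ∀ i j, ⟪M (x i), x j⟫ = C i j := by
    intro i j
    rw [hMin, hAinner]
    simp_rw [hcol]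
    have : ∀ k, C k i * (L (x j)) k = C i k * (L (x j)) k := fun k => by rw [hC]
    simp_rw [this]
    exact hcol i j
  have hfin : Module.finrank ℝ (EuclideanSpace ℝ (Fin d)) = d := by simp
  let e := hM.eigenvectorBasis hfin
  have he : ∀ l, M (e l) = (hM.eigenvalues hfin l) • e l := by
    intro l
    exact hM.apply_eigenvectorBasis hfin l
  refine ⟨fun i l => ⟪e l, x i⟫, hM.eigenvalues hfin, ?_, ?_⟩
  · intro i j
    rw [← hMx i j, ← OrthonormalBasis.sum_inner_mul_inner e]
    unfold F
    refine Finset.sum_congr rfl fun l _ => ?_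
    have hcomm : ⟪x i, e l⟫ = ⟪e l, x i⟫ := real_inner_comm _ _
    rw [hM (x i) (e l), he, inner_smul_right, hcomm]
    ring
  · intro i j
    rw [← OrthonormalBasis.sum_inner_mul_inner e]
    refine Finset.sum_congr rfl fun l _ => ?_
    have hcomm : ⟪x i, e l⟫ = ⟪e l, x i⟫ := real_inner_comm _ _
    rw [hcomm]

/-- From a single position where all linear relations are common eigenvectors, produce the
two-distance set. -/
theorem from_mid (hd : 7 ≤ d) (hn : d * d < 2 * n + d)
    (x : Fin n → EuclideanSpace ℝ (Fin d)) (A B : Fin n → Fin n → ℝ)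
    (hAs : ∀ i j, A i j = A j i) (hBs : ∀ i j, B i j = B j i)
    (hA0 : ∀ i, A i i = 0) (hB0 : ∀ i, B i i = 0)
    (hAB : ∀ i j, i ≠ j → (A i j = 0 ∧ B i j ^ 2 = 1) ∨ (B i j = 0 ∧ A i j ^ 2 = 1))
    (hAne : ∃ i j, A i j ≠ 0) (hBne : ∃ i j, B i j ≠ 0)
    (α β a b : ℝ) (hG : ∀ i j, ⟪x i, x j⟫ = (if i = j then 1 else 0) + α * A i j + β * B i j)
    (hline : 1 + a * α + b * β = 0) (hα : α ^ 2 < 1) (hβ : β ^ 2 < 1)
    (hkerA : ∀ v : Fin n → ℝ, ∑ i, v i • x i = 0 → ∀ i, ∑ j, A i j * v j = a * v i)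
    (hkerB : ∀ v : Fin n → ℝ, ∑ i, v i • x i = 0 → ∀ i, ∑ j, B i j * v j = b * v i) :
    ∃ s : Finset (EuclideanSpace ℝ (Fin (d - 1))), IsTwoDistance s ∧ s.card = n := by
  classical
  -- the two shifted matrices
  have hshift : ∀ (C : Fin n → Fin n → ℝ) (c : ℝ),
      (∀ v : Fin n → ℝ, ∑ i, v i • x i = 0 → ∀ i, ∑ j, C i j * v j = c * v i) →
      ∀ v : Fin n → ℝ, ∑ i, v i • x i = 0 →
        ∀ i, ∑ j, (C i j - if i = j then c else 0) * v j = 0 := by
    intro C c hC v hv i
    simp_rw [sub_mul]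
    rw [Finset.sum_sub_distrib, hC v hv i]
    simp
  obtain ⟨r, ca, cb, hca, hcb⟩ : ∃ (r : Fin n → Fin d → ℝ) (ca cb : Fin d → ℝ),
      (∀ i j, F r ca i j = A i j - if i = j then a else 0) ∧
      (∀ i j, F r cb i j = B i j - if i = j then b else 0) := by
    by_cases hβ0 : β = 0
    · have hα0 : α ≠ 0 := by
        rintro rfl
        rw [hβ0] at hline
        norm_num at hline
      obtain ⟨r, c, h1, h2⟩ := diag_form x (fun i j => B i j - if i = j then b else 0)
        (fun i j => by simp only [hBs i j, eq_comm]) (hshift B b hkerB)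
      refine ⟨r, fun _ => α⁻¹, c, ?_, h1⟩
      intro i j
      have h3 : F r (fun _ => α⁻¹) i j = α⁻¹ * ⟪x i, x j⟫ := by
        rw [← h2]
        unfold F
        rw [Finset.mul_sum]
      rw [h3, hG, hβ0]
      rw [hβ0] at hline
      have h4 : α⁻¹ = -a := by
        field_simp
        linarith
      by_cases hij : i = j
      · subst hij
        rw [hA0, if_pos rfl, if_pos rfl, h4]; ring
      · rw [if_neg hij, if_neg hij]
        field_simp
        ring
    · obtain ⟨r, c, h1, h2⟩ := diag_form x (fun i j => A i j - if i = j then a else 0)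
        (fun i j => by simp only [hAs i j, eq_comm]) (hshift A a hkerA)
      refine ⟨r, c, fun l => β⁻¹ * (1 - α * c l), h1, ?_⟩
      intro i j
      have h3 : F r (fun l => β⁻¹ * (1 - α * c l)) i j = β⁻¹ * (⟪x i, x j⟫ - α * F r c i j) := by
        rw [← h2]
        unfold F
        rw [Finset.mul_sum, ← Finset.sum_sub_distrib, Finset.mul_sum]
        refine Finset.sum_congr rfl fun l _ => by ring
      rw [h3, hG, h1]
      by_cases hij : i = j
      · subst hij
        rw [hA0, hB0, if_pos rfl, if_pos rfl, if_pos rfl]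
        field_simp
        linarith
      · rw [if_neg hij, if_neg hij, if_neg hij]
        field_simp
        ring
  -- the sum and difference forms
  have hadd : ∀ i j, F r (fun l => ca l + cb l) i j = F r ca i j + F r cb i j := by
    intro i j
    unfold F
    rw [← Finset.sum_add_distrib]
    refine Finset.sum_congr rfl fun l _ => by ring
  have hsub : ∀ i j, F r (fun l => ca l - cb l) i j = F r ca i j - F r cb i j := by
    intro i j
    unfold F
    rw [← Finset.sum_sub_distrib]
    refine Finset.sum_congr rfl fun l _ => by ring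
  have hP : PM r (fun l => ca l + cb l) (-(a + b)) := by
    refine ⟨fun i => ?_, fun i j hij => ?_⟩
    · rw [hadd, hca, hcb, hA0, hB0, if_pos rfl, if_pos rfl]; ring
    · rw [hadd, hca, hcb, if_neg hij, if_neg hij]
      rcases hAB i j hij with ⟨h1, h2⟩ | ⟨h1, h2⟩
      · rw [h1, ← h2]; ring
      · rw [h1, ← h2]; ring
  have hM : PM r (fun l => ca l - cb l) (-(a - b)) := by
    refine ⟨fun i => ?_, fun i j hij => ?_⟩
    · rw [hsub, hca, hcb, hA0, hB0, if_pos rfl, if_pos rfl]; ring
    · rw [hsub, hca, hcb, if_neg hij, if_neg hij]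
      rcases hAB i j hij with ⟨h1, h2⟩ | ⟨h1, h2⟩
      · rw [h1, ← h2]; ring
      · rw [h1, ← h2]; ring
  have hTwo : Two r (fun l => ca l + cb l) (fun l => ca l - cb l) (-(a + b)) (-(a - b)) := by
    refine ⟨hP, hM, ?_, ?_⟩
    · obtain ⟨i, j, hij⟩ := hAne
      have hne : i ≠ j := by
        rintro rfl
        exact hij (hA0 i)
      refine ⟨i, j, hne, ?_⟩
      rcases hAB i j hne with ⟨h1, _⟩ | ⟨h1, _⟩
      · exact absurd h1 hij
      · rw [hadd, hsub, hcb, h1, if_neg hne]; ring
    · obtain ⟨i, j, hij⟩ := hBne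
      have hne : i ≠ j := by
        rintro rfl
        exact hij (hB0 i)
      refine ⟨i, j, hne, ?_⟩
      rcases hAB i j hne with ⟨h1, _⟩ | ⟨h1, _⟩
      · rw [hadd, hsub, hca, h1, if_neg hne]; ring
      · exact absurd h1 hij
  have hnot : ¬ ((-(a + b)) ^ 2 = 1 ∧ (-(a - b)) ^ 2 = 1) := by
    rintro ⟨h1, h2⟩
    have hab : a * b = 0 := by nlinarith
    have hs : a ^ 2 + b ^ 2 = 1 := by nlinarith
    rcases mul_eq_zero.1 hab with h3 | h3
    · rw [h3] at hline hs
      have h4 : b * β = -1 := by linarith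
      have h5 : (b * β) ^ 2 = 1 := by rw [h4]; norm_num
      have h6 : b ^ 2 = 1 := by linarith
      rw [mul_pow, h6] at h5
      linarith
    · rw [h3] at hline hs
      have h4 : a * α = -1 := by linarith
      have h5 : (a * α) ^ 2 = 1 := by rw [h4]; norm_num
      have h6 : a ^ 2 = 1 := by linarith
      rw [mul_pow, h6] at h5
      linarith
  have hdata := main_cases hTwo hd hn hnot
  obtain ⟨m, rfl⟩ : ∃ m, d = m + 1 := ⟨d - 1, by omega⟩
  exact hdata.twoDistance (by nlinarith)

end Pool.Agent.MP_0a9180_co
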